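import Mathlib

/-! The free algebra on two generators with its `ℓ¹` norm, and the Dynkin criterion. -/

open Finset

noncomputable section

namespace H522R3.Spl

/-- the free algebra on two generators -/
abbrev A : Type := FreeAlgebra ℂ Bool

abbrev B : Type := MonoidAlgebra ℂ (FreeMonoid Bool)

def nB (b : B) : ℝ := b.coeff.sum fun _ c => ‖c‖

theorem nB_eq (b : B) {s : Finset (FreeMonoid Bool)} (h : b.coeff.support ⊆ s) :
    nB b = ∑ w ∈ s, ‖b.coeff w‖ :=
  Finsupp.sum_of_support_subset _ h _ (by simp)

theorem nB_add (b c : B) : nB (b + c) ≤ nB b + nB c := by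
  classical
  have h1 : (b + c).coeff.support ⊆ b.coeff.support ∪ c.coeff.support := by
    rw [MonoidAlgebra.coeff_add]; exact Finsupp.support_add
  rw [nB_eq _ h1, nB_eq b subset_union_left, nB_eq c subset_union_right, ← sum_add_distrib]
  refine sum_le_sum fun w _ => ?_
  rw [MonoidAlgebra.coeff_add]
  exact norm_add_le _ _

theorem nB_zero : nB 0 = 0 := by simp [nB]

theorem nB_neg (b : B) : nB (-b) = nB b := by
  classical
  unfold nB
  rw [MonoidAlgebra.coeff_neg, Finsupp.sum_neg_index (by simp)]
  simp

theorem nB_smul (r : ℂ) (b : B) : nB (r • b) = ‖r‖ * nB b := by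
  classical
  have h1 : (r • b).coeff.support ⊆ b.coeff.support := by
    rw [MonoidAlgebra.coeff_smul]; exact Finsupp.support_smul
  rw [nB_eq _ h1, nB_eq b (subset_refl _), mul_sum]
  refine sum_congr rfl fun w _ => ?_
  rw [MonoidAlgebra.coeff_smul]
  simp

theorem nB_single (w : FreeMonoid Bool) (r : ℂ) : nB (MonoidAlgebra.single w r) = ‖r‖ := by
  simp [nB]

theorem nB_sum {ι : Type} (s : Finset ι) (f : ι → B) : nB (∑ i ∈ s, f i) ≤ ∑ i ∈ s, nB (f i) := by
  classical
  induction s using Finset.induction_on with
  | empty => simp [nB_zero]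
  | insert a s ha ih =>
    rw [sum_insert ha, sum_insert ha]
    exact (nB_add _ _).trans (by linarith)

theorem nB_nonneg (b : B) : 0 ≤ nB b := by
  unfold nB
  exact Finset.sum_nonneg fun _ _ => norm_nonneg _

theorem decomp (b : B) : b = ∑ w ∈ b.coeff.support, MonoidAlgebra.single w (b.coeff w) := by
  classical
  apply MonoidAlgebra.coeff_injective
  rw [MonoidAlgebra.coeff_sum]
  simp only [MonoidAlgebra.coeff_single]
  exact (Finsupp.sum_single b.coeff).symm

theorem nB_mul (b c : B) : nB (b * c) ≤ nB b * nB c := by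
  classical
  have h : b * c = ∑ w ∈ b.coeff.support, ∑ v ∈ c.coeff.support,
      MonoidAlgebra.single (w * v) (b.coeff w * c.coeff v) := by
    conv_lhs => rw [decomp b, decomp c]
    rw [Finset.sum_mul_sum]
    simp only [MonoidAlgebra.single_mul_single]
  rw [h]
  refine (nB_sum _ _).trans ?_
  rw [nB_eq b (subset_refl _), nB_eq c (subset_refl _), Finset.sum_mul_sum]
  refine sum_le_sum fun w _ => (nB_sum _ _).trans ?_
  refine sum_le_sum fun v _ => ?_
  rw [nB_single, norm_mul]

theorem nB_eq_zero (b : B) (h : nB b = 0) : b = 0 := by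
  classical
  apply MonoidAlgebra.coeff_injective
  rw [MonoidAlgebra.coeff_zero]
  ext w
  rw [nB_eq b (subset_refl _)] at h
  have h2 := (Finset.sum_eq_zero_iff_of_nonneg (fun _ _ => norm_nonneg _)).1 h
  by_cases hw : w ∈ b.coeff.support
  · simpa using h2 w hw
  · simpa using hw

def eqv : A ≃ₐ[ℂ] B := FreeAlgebra.equivMonoidAlgebraFreeMonoid

def nA : RingNorm A where
  toFun a := nB (eqv a)
  map_zero' := by simp [nB_zero]
  add_le' a b := by rw [map_add]; exact nB_add _ _
  neg' a := by rw [map_neg]; exact nB_neg _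
  mul_le' a b := by rw [map_mul]; exact nB_mul _ _
  eq_zero_of_map_eq_zero' a h := by
    have := nB_eq_zero _ h
    simpa using this

instance : NormedRing A := { nA.toNormedRing with }

theorem norm_def (a : A) : ‖a‖ = nB (eqv a) := rfl

instance : NormedSpace ℂ A where
  norm_smul_le r a := by
    rw [norm_def, norm_def, map_smul, nB_smul]

instance : NormOneClass A where
  norm_one := by
    rw [norm_def, map_one, MonoidAlgebra.one_def, nB_single]; simp

def X (b : Bool) : A := FreeAlgebra.ι ℂ b

theorem eqv_X (b : Bool) : eqv (X b) = MonoidAlgebra.single (FreeMonoid.of b) 1 := by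
  simp [eqv, X, FreeAlgebra.equivMonoidAlgebraFreeMonoid]

theorem norm_X (b : Bool) : ‖X b‖ = 1 := by
  rw [norm_def, eqv_X, nB_single]; simp

/-- the norm of a linear form `a X + b Y` -/
theorem norm_lin (a b : ℂ) : ‖a • X false + b • X true‖ = ‖a‖ + ‖b‖ := by
  classical
  rw [norm_def, map_add, map_smul, map_smul, eqv_X, eqv_X]
  have h : (a • MonoidAlgebra.single (FreeMonoid.of false) (1:ℂ) +
      b • MonoidAlgebra.single (FreeMonoid.of true) (1:ℂ) : B).coeff.support ⊆
      {FreeMonoid.of false, FreeMonoid.of true} := by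
    rw [MonoidAlgebra.coeff_add]
    refine Finsupp.support_add.trans ?_
    refine Finset.union_subset ?_ ?_
    · rw [MonoidAlgebra.coeff_smul]
      refine Finsupp.support_smul.trans ?_
      rw [MonoidAlgebra.coeff_single]
      exact Finsupp.support_single_subset.trans (by simp)
    · rw [MonoidAlgebra.coeff_smul]
      refine Finsupp.support_smul.trans ?_
      rw [MonoidAlgebra.coeff_single]
      exact Finsupp.support_single_subset.trans (by simp)
  have hne : FreeMonoid.of false ≠ FreeMonoid.of true := by
    intro h; simpa using FreeMonoid.of_injective h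
  rw [nB_eq _ h, Finset.sum_pair hne]
  simp [MonoidAlgebra.coeff_add, MonoidAlgebra.coeff_smul, MonoidAlgebra.coeff_single,
    Finsupp.single_apply, hne, hne.symm]

end H522R3.Spl
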