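import Pool.Agent.H522R3.Spl.Key

/-! Exact attainability, by induction on the order. -/

open Finset PowerSeries Filter Topology
open scoped TensorProduct

noncomputable section

namespace H522R3.Spl

def Ach (N : ℕ) (c : ℝ) (v : A) (r : ℝ) : Prop :=
  ∃ l, Pos l ∧ sz l ≤ r ∧ Rel (N + 1) (W l) (E c) v

theorem Ach.add {N : ℕ} {c c' : ℝ} {v v' : A} {r r' : ℝ} (h : Ach N c v r) (h' : Ach N c' v' r') :
    Ach N (c + c') (v + v') (r + r') := by
  obtain ⟨l, h1, h2, h3⟩ := h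
  obtain ⟨l', h1', h2', h3'⟩ := h'
  refine ⟨l ++ l', h1.append h1', by rw [sz_append]; linarith, ?_⟩
  rw [W_append, Complex.ofReal_add, ← E_mul]
  exact h3.mul h3' (W_Grl l').one (E_Grl _).one

theorem Ach.scale {N : ℕ} {c : ℝ} {v : A} {r : ℝ} (h : Ach N c v r) {m : ℝ} (hm : 0 < m) :
    Ach N (m * c) (((m ^ (N + 1) : ℝ) : ℂ) • v) (m * r) := by
  obtain ⟨l, h1, h2, h3⟩ := h
  refine ⟨sc m l, h1.sc hm, ?_, ?_⟩
  · rw [sz_sc, Complex.norm_real, Real.norm_of_nonneg hm.le]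
    exact mul_le_mul_of_nonneg_left h2 hm.le
  · have := h3.dil (W_Grl l) (E_Grl _) (m : ℂ)
    rw [dil_W, dil_E] at this
    push_cast
    exact this

theorem Ach.nonneg {N : ℕ} {c : ℝ} {v : A} {r : ℝ} (h : Ach N c v r) : 0 ≤ r := by
  obtain ⟨l, _, h2, _⟩ := h
  exact (sz_nonneg l).trans h2

theorem Ach.mono {N : ℕ} {c : ℝ} {v : A} {r r' : ℝ} (h : Ach N c v r) (hr : r ≤ r') :
    Ach N c v r' := by
  obtain ⟨l, h1, h2, h3⟩ := h
  exact ⟨l, h1, h2.trans hr, h3⟩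

theorem exists_root (N : ℕ) {m : ℝ} (hm : 0 < m) : ∃ e : ℝ, 0 < e ∧ e ^ (N + 1) = m :=
  ⟨m ^ (((N + 1 : ℕ) : ℝ)⁻¹), Real.rpow_pos_of_pos hm _,
    Real.rpow_inv_natCast_pow hm.le (Nat.succ_ne_zero N)⟩

section
variable {n : ℕ} {R0 δ0 : ℝ}

instance (n : ℕ) : FiniteDimensional ℂ (L n) := fin_L n

theorem coe_rsmul (t : ℝ) (v : L n) : ((t • v : L n) : A) = (t : ℂ) • (v : A) := rfl

/-- cone of attained defects -/
def Kc (N : ℕ) : Set (L N) := {v | ∃ e : ℝ, 0 < e ∧ ∃ r, Ach N e (v : A) r}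

theorem Kc_add {N : ℕ} {v w : L N} (hv : v ∈ Kc N) (hw : w ∈ Kc N) : v + w ∈ Kc N := by
  obtain ⟨e, he, r, h⟩ := hv
  obtain ⟨e', he', r', h'⟩ := hw
  exact ⟨e + e', add_pos he he', r + r', h.add h'⟩

theorem Kc_smul {N : ℕ} {v : L N} (hv : v ∈ Kc N) {m : ℝ} (hm : 0 < m) : m • v ∈ Kc N := by
  obtain ⟨e, he, r, h⟩ := hv
  obtain ⟨s, hs, hs'⟩ := exists_root N hm
  refine ⟨s * e, mul_pos hs he, s * r, ?_⟩
  have := h.scale hs
  rwa [hs'] at this

theorem Kc_convex (N : ℕ) : Convex ℝ (Kc N) := by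
  intro v hv w hw a b ha hb hab
  rcases ha.eq_or_lt with rfl | ha
  · have : b = 1 := by linarith
    subst this; simpa using hw
  rcases hb.eq_or_lt with rfl | hb
  · have : a = 1 := by linarith
    subst this; simpa using hv
  exact Kc_add (Kc_smul hv ha) (Kc_smul hw hb)

theorem Kc_univ (hδ : 0 < δ0) (hP : PP (n + 1) R0 δ0) : Kc (n + 1) = Set.univ := by
  -- closure is everything
  have hcl : closure (Kc (n + 1)) = Set.univ := by
    by_contra hne
    obtain ⟨x, hx⟩ := (Set.ne_univ_iff_exists_notMem _).1 hne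
    obtain ⟨f, u, hfx, hfu⟩ := geometric_hahn_banach_point_closed (Kc_convex (n + 1)).closure
      isClosed_closure hx
    have hpos : ∀ v ∈ Kc (n + 1), 0 ≤ f v := by
      intro v hv
      by_contra hneg
      push Not at hneg
      have h1 : 0 < (|u| + 1) / (-f v) := div_pos (by positivity) (by linarith)
      have h2 := hfu _ (subset_closure (Kc_smul hv h1))
      rw [map_smul, smul_eq_mul, div_mul_eq_mul_div, div_neg, mul_div_cancel_right₀ _ hneg.ne] at h2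
      have := neg_abs_le u
      linarith
    -- extend to a functional on `A`
    obtain ⟨p, hp⟩ : ∃ p : A →ₗ[ℂ] (L (n + 1)), ∀ v : L (n + 1), p v = v := by
      obtain ⟨p, hp⟩ := (L (n + 1)).exists_isCompl
      exact ⟨Submodule.projectionOnto _ _ hp, fun v => Submodule.projectionOnto_apply_left hp v⟩
    set ℓ : A →+ ℝ := (f : L (n + 1) →+ ℝ).comp (p : A →+ L (n + 1)) with hℓ
    have hℓv : ∀ v : L (n + 1), ℓ (v : A) = f v := fun v => by
      change f (p v) = f v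
      rw [hp]
    have hzero : ∀ v : L (n + 1), f v = 0 := by
      intro v
      rw [← hℓv]
      refine key hδ hP (ℓ := ℓ) (Cl := ‖f‖) ?_ ?_ f.opNorm_nonneg ?_ v.2
      · intro t x
        change f (p ((t : ℂ) • x)) = t * f (p x)
        rw [map_smul]
        have : ((t : ℂ) • p x) = (t : ℝ) • p x := rfl
        rw [this, map_smul]; rfl
      · intro x hx
        have := f.le_opNorm ⟨x, hx⟩
        rw [← hℓv ⟨x, hx⟩] at this
        exact this
      · rintro v ⟨hv, l, hl1, hl2⟩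
        have := hpos ⟨v, hv⟩ ⟨1, one_pos, sz l, l, hl1, le_rfl, by simpa using hl2⟩
        rwa [← hℓv ⟨v, hv⟩] at this
    -- contradiction
    have hne' : (Kc (n + 1)).Nonempty := by
      obtain ⟨l, h1, h2, h3⟩ := hP (E 1) (E_Grl 1) (by intro j _; simp [hδ])
      refine ⟨⟨coeff (n + 1 + 1) (W l) - coeff (n + 1 + 1) (E 1), (W_Grl l).diff (E_Grl 1) h3⟩,
        1, one_pos, sz l, l, h1, le_rfl, ?_⟩
      rw [Complex.ofReal_one]
      exact ⟨fun j hj => h3 j (by omega), by simp only; abel⟩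
    obtain ⟨k, hk⟩ := hne'
    have h1 := hfu k (subset_closure hk)
    rw [hzero] at hfx h1
    linarith
  -- interior is nonempty
  have hint : (interior (Kc (n + 1))).Nonempty := by
    rw [(Kc_convex (n + 1)).interior_nonempty_iff_affineSpan_eq_top]
    have h1 : IsClosed ((affineSpan ℝ (Kc (n + 1)) : AffineSubspace ℝ (L (n + 1))) : Set (L (n + 1))) :=
      AffineSubspace.closed_of_finiteDimensional _
    have h2 : closure (Kc (n + 1)) ⊆ (affineSpan ℝ (Kc (n + 1)) : Set (L (n + 1))) :=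
      closure_minimal (subset_affineSpan ℝ _) h1
    rw [hcl] at h2
    rw [eq_top_iff]
    intro x _
    exact h2 (Set.mem_univ x)
  obtain ⟨x0, hx0⟩ := hint
  rw [Set.eq_univ_iff_forall]
  intro v
  have h1 : (2 : ℝ) • v - x0 ∈ closure (Kc (n + 1)) := by rw [hcl]; trivial
  have h2 := (Kc_convex (n + 1)).openSegment_interior_closure_subset_interior hx0 h1
  refine interior_subset (h2 ?_)
  refine ⟨1 / 2, 1 / 2, by norm_num, by norm_num, by norm_num, ?_⟩
  rw [← smul_add, add_sub_cancel, smul_smul]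
  norm_num

theorem ach_zero (hδ : 0 < δ0) (hP : PP (n + 1) R0 δ0) : ∃ r, Ach (n + 1) 1 0 r := by
  have h : (0 : L (n + 1)) ∈ Kc (n + 1) := by rw [Kc_univ hδ hP]; trivial
  obtain ⟨e, he, r, h⟩ := h
  have := h.scale (inv_pos.2 he)
  rw [inv_mul_cancel₀ he.ne'] at this
  exact ⟨_, by simpa using this⟩

theorem ach_ray (hδ : 0 < δ0) (hP : PP (n + 1) R0 δ0) (u : L (n + 1)) :
    ∃ r, ∃ t0 : ℝ, 0 < t0 ∧ ∀ t : ℝ, 0 ≤ t → t ≤ t0 → Ach (n + 1) 1 ((t : ℂ) • (u : A)) r := by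
  obtain ⟨r0, h0⟩ := ach_zero hδ hP
  have h : u ∈ Kc (n + 1) := by rw [Kc_univ hδ hP]; trivial
  obtain ⟨e, he, r, h⟩ := h
  refine ⟨(1 / (2 * e)) * r + r0, (1 / (2 * e)) ^ (n + 1 + 1), by positivity, fun t ht0 ht => ?_⟩
  have hr := h.nonneg
  have hr0 := h0.nonneg
  rcases ht0.eq_or_lt with rfl | htp
  · have : (((0:ℝ) : ℂ) • (u : A)) = 0 := by simp
    rw [this]
    refine h0.mono ?_
    have : 0 ≤ (1 / (2 * e)) * r := by positivity
    linarith
  · obtain ⟨s, hs, hs'⟩ := exists_root (n + 1) htp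
    have hse : s ≤ 1 / (2 * e) := by
      rw [← hs'] at ht
      exact le_of_pow_le_pow_left₀ (by omega) (by positivity) ht
    have h1 : s * e ≤ 1 / 2 := by
      calc s * e ≤ 1 / (2 * e) * e := mul_le_mul_of_nonneg_right hse he.le
        _ = 1 / 2 := by field_simp
    have h2 := (h.scale hs).add (h0.scale (m := 1 - s * e) (by linarith))
    rw [hs', smul_zero, add_zero, mul_one, add_sub_cancel] at h2
    refine h2.mono ?_
    have h3 : s * r ≤ (1 / (2 * e)) * r := mul_le_mul_of_nonneg_right hse hr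
    have h4 : (1 - s * e) * r0 ≤ r0 := by
      have : 0 ≤ s * e := by positivity
      nlinarith
    linarith

theorem ach_line (hδ : 0 < δ0) (hP : PP (n + 1) R0 δ0) (u : L (n + 1)) :
    ∃ r, ∃ t0 : ℝ, 0 < t0 ∧ ∀ t : ℝ, |t| ≤ t0 → Ach (n + 1) 1 ((t : ℂ) • (u : A)) r := by
  obtain ⟨r, t0, ht0, h⟩ := ach_ray hδ hP u
  obtain ⟨r', t0', ht0', h'⟩ := ach_ray hδ hP (-u)
  refine ⟨max r r', min t0 t0', lt_min ht0 ht0', fun t ht => ?_⟩
  rcases le_total 0 t with h1 | h1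
  · rw [abs_of_nonneg h1] at ht
    exact (h t h1 (ht.trans (min_le_left _ _))).mono (le_max_left _ _)
  · rw [abs_of_nonpos h1] at ht
    have := h' (-t) (by linarith) (ht.trans (min_le_right _ _))
    have h2 : (((-t : ℝ) : ℂ) • ((-u : L (n + 1)) : A)) = (t : ℂ) • (u : A) := by
      push_cast; simp
    rw [h2] at this
    exact this.mono (le_max_right _ _)

theorem ach_ball (hδ : 0 < δ0) (hP : PP (n + 1) R0 δ0) :
    ∃ r : ℝ, 0 < r ∧ ∃ ρ, ∀ v ∈ L (n + 1), ‖v‖ ≤ r → Ach (n + 1) 1 v ρ := by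
  classical
  let b := Module.finBasis ℝ (L (n + 1))
  obtain ⟨r0, h0⟩ := ach_zero hδ hP
  have hfin : ∀ s : Finset (Fin (Module.finrank ℝ (L (n + 1)))), ∃ ρ, ∃ t : ℝ, 0 < t ∧
      ∀ x : Fin (Module.finrank ℝ (L (n + 1))) → ℝ, (∀ i, |x i| ≤ t) →
        Ach (n + 1) 1 ((∑ i ∈ s, x i • b i : L (n + 1)) : A) ρ := by
    intro s
    induction s using Finset.induction_on with
    | empty => exact ⟨r0, 1, one_pos, fun x _ => by simpa using h0⟩
    | insert i s his ih =>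
      obtain ⟨ρ, t, ht, h⟩ := ih
      obtain ⟨ρ', t', ht', h'⟩ := ach_line hδ hP (b i)
      refine ⟨1 / 2 * ρ' + 1 / 2 * ρ, min t t' / 2 ^ (n + 1 + 1), by positivity, fun x hx => ?_⟩
      have h2 : (0:ℝ) < 2 ^ (n + 1 + 1) := by positivity
      have hx2 : ∀ j, |2 ^ (n + 1 + 1) * x j| ≤ min t t' := by
        intro j
        rw [abs_mul, abs_of_pos h2]
        have := hx j
        rw [le_div_iff₀ h2] at this
        linarith
      have e1 := (h' (2 ^ (n + 1 + 1) * x i) ((hx2 i).trans (min_le_right _ _))).scale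
        (m := 1 / 2) (by norm_num)
      have e2 := (h (fun j => 2 ^ (n + 1 + 1) * x j) (fun j => (hx2 j).trans (min_le_left _ _))).scale
        (m := 1 / 2) (by norm_num)
      have e3 := e1.add e2
      have e4 : (((1 / 2 : ℝ) ^ (n + 1 + 1) : ℝ) : ℂ) • (((2 ^ (n + 1 + 1) * x i : ℝ) : ℂ) • ((b i : L (n + 1)) : A))
          = (x i : ℂ) • ((b i : L (n + 1)) : A) := by
        rw [smul_smul]
        congr 1
        push_cast
        rw [← mul_assoc, ← mul_pow]
        norm_num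
      have e5 : (((1 / 2 : ℝ) ^ (n + 1 + 1) : ℝ) : ℂ) •
          ((∑ j ∈ s, (2 ^ (n + 1 + 1) * x j) • b j : L (n + 1)) : A) =
          ((∑ j ∈ s, x j • b j : L (n + 1)) : A) := by
        rw [← coe_rsmul, Finset.smul_sum]
        congr 2
        funext j
        rw [smul_smul, ← mul_assoc, ← mul_pow]
        norm_num
      rw [e4, e5] at e3
      have e6 : ((∑ j ∈ insert i s, x j • b j : L (n + 1)) : A) =
          (x i : ℂ) • ((b i : L (n + 1)) : A) + ((∑ j ∈ s, x j • b j : L (n + 1)) : A) := by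
        rw [Finset.sum_insert his, Submodule.coe_add, coe_rsmul]
      rw [e6]
      have e7 : (1 / 2 : ℝ) * 1 + 1 / 2 * 1 = 1 := by norm_num
      rwa [e7] at e3
  obtain ⟨ρ, t, ht, h⟩ := hfin Finset.univ
  obtain ⟨C, hC0, hC⟩ := (b.equivFunL.toContinuousLinearMap).bound
  refine ⟨t / C, by positivity, ρ, fun v hv hvr => ?_⟩
  have h1 := h (b.equivFun ⟨v, hv⟩) (fun i => by
    have h2 : ‖b.equivFunL ⟨v, hv⟩ i‖ ≤ ‖b.equivFunL ⟨v, hv⟩‖ := norm_le_pi_norm _ i
    have h3 : ‖b.equivFunL ⟨v, hv⟩‖ ≤ C * ‖v‖ := hC ⟨v, hv⟩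
    rw [← Real.norm_eq_abs]
    refine h2.trans (h3.trans ?_)
    rw [le_div_iff₀ hC0] at hvr
    linarith)
  have h6 : (∑ i, (b.equivFun ⟨v, hv⟩) i • b i : L (n + 1)) = ⟨v, hv⟩ := b.sum_equivFun ⟨v, hv⟩
  rw [h6] at h1
  exact h1

end

end H522R3.Spl
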