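import Pool.Agent.H522R3.Spl.Wd

/-! Real Lie elements are reached by purely imaginary words. -/

open Finset PowerSeries
open scoped TensorProduct

noncomputable section

namespace H522R3.Spl

/-- `exp (c T (X + Y))` -/
def E (c : ℂ) : R := exg (c • (X false + X true))

theorem XY_mem (c : ℂ) : c • (X false + X true) ∈ M :=
  Submodule.smul_mem _ _ (Submodule.add_mem _ (X_mem _) (X_mem _))

theorem E_Grl (c : ℂ) : Grl (E c) := Grl.ex (XY_mem c)

theorem E_mul (a b : ℂ) : E a * E b = E (a + b) := by
  rw [E, E, E, exg_add, add_smul]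
  exact (Commute.refl _).smul_left a |>.smul_right b

theorem E_zero : E 0 = 1 := by rw [E, zero_smul, exg_zero]

theorem dil_E (m c : ℂ) : PowerSeries.map (dil m : A →+* A) (E c) = E (m * c) := by
  rw [E, dil_exg _ (XY_mem c), smul_smul, E]

def iX (b : Bool) : A := Complex.I • X b

/-- the real Lie algebra generated by `i X`, `i Y`, degree `n + 1` -/
inductive Kr : ℕ → A → Prop
  | base (b : Bool) (r : ℝ) : Kr 0 ((r : ℂ) • iX b)
  | brk (n : ℕ) (e : A) (b : Bool) : Kr n e → Kr (n + 1) (e * iX b - iX b * e)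
  | zero (n : ℕ) : Kr n 0
  | add (n : ℕ) (x y : A) : Kr n x → Kr n y → Kr n (x + y)

theorem Kr.smul {n : ℕ} {e : A} (h : Kr n e) (r : ℝ) : Kr n ((r : ℂ) • e) := by
  induction h with
  | base b s => rw [smul_smul, ← Complex.ofReal_mul]; exact Kr.base b _
  | brk n e b _ ih =>
    have : (r : ℂ) • (e * iX b - iX b * e) = ((r : ℂ) • e) * iX b - iX b * ((r : ℂ) • e) := by
      rw [smul_sub, smul_mul_assoc, mul_smul_comm]
    rw [this]; exact Kr.brk n _ b ih
  | zero n => rw [smul_zero]; exact Kr.zero n
  | add n x y _ _ hx hy => rw [smul_add]; exact Kr.add n _ _ hx hy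

def Imag (l : List (ℂ × ℂ)) : Prop := ∀ p ∈ l, p.1.re = 0 ∧ p.2.re = 0

theorem Imag.append {l l' : List (ℂ × ℂ)} (h : Imag l) (h' : Imag l') : Imag (l ++ l') := by
  intro p hp
  rcases List.mem_append.1 hp with h1 | h1
  · exact h p h1
  · exact h' p h1

theorem Imag.linv : ∀ {l : List (ℂ × ℂ)}, Imag l → Imag (linv l)
  | [], _ => by intro p hp; simp [Spl.linv] at hp
  | q :: l, h => by
    have h1 : Imag l := fun p hp => h p (by simp [hp])
    have h2 := h q (by simp)
    rw [Spl.linv]
    refine (Imag.linv h1).append ?_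
    intro p hp
    simp only [List.mem_cons, List.not_mem_nil, or_false] at hp
    rcases hp with rfl | rfl
    · simp [h2.1]
    · simp [h2.2]

def one' (b : Bool) (c : ℂ) : List (ℂ × ℂ) :=
  match b with
  | false => [(c, 0)]
  | true => [(0, c)]

theorem W_one' (b : Bool) (c : ℂ) : W (one' b c) = exg (c • X b) := by
  cases b <;> simp [one', W, exg_zero]

theorem Imag_one' (b : Bool) (c : ℂ) (hc : c.re = 0) : Imag (one' b c) := by
  intro p hp
  cases b <;> simp [one'] at hp <;> subst hp <;> simp [hc]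

theorem one'_ne (b : Bool) (c : ℂ) : one' b c ≠ [] := by
  cases b <;> simp [one']

theorem Kr_list : ∀ {n : ℕ} {e : A}, Kr n e → ∃ l, Imag l ∧ l ≠ [] ∧ Rel (n + 1) (W l) 1 e := by
  intro n e h
  induction h with
  | base b r =>
    refine ⟨one' b (r * Complex.I), Imag_one' _ _ (by simp), one'_ne _ _, ?_⟩
    rw [W_one', iX, smul_smul]
    constructor
    · intro j hj
      have : j = 0 := by omega
      rw [this, coeff_exg_zero]; simp
    · rw [zero_add, coeff_exg_one, coeff_one]; simp
  | brk n e b _ ih =>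
    obtain ⟨l, h1, h2, h3⟩ := ih
    have h4 := h3.comm (x := iX b) (W_Wi l) (Wi_Grl l).one
    refine ⟨l ++ (one' b Complex.I ++ (linv l ++ one' b (-Complex.I))), ?_, by simp [h2], ?_⟩
    · exact h1.append ((Imag_one' _ _ (by simp)).append (h1.linv.append
          (Imag_one' _ _ (by simp))))
    · rw [W_append, W_append, W_append, W_one', W_one', W_linv, neg_smul]
      change Rel (n + 1 + 1) (W l * (exg (iX b) * (Wi l * exg (-(iX b))))) 1 _
      simpa only [mul_assoc] using h4
  | zero n =>
    refine ⟨[(0, 0)], by intro p hp; simp at hp; subst hp; simp, by simp, ?_⟩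
    have : W [(0, 0)] = 1 := by simp [W, exg_zero]
    rw [this]; exact Rel.refl _ _
  | add n x y _ _ hx hy =>
    obtain ⟨l, h1, h2, h3⟩ := hx
    obtain ⟨l', h1', _, h3'⟩ := hy
    refine ⟨l ++ l', h1.append h1', by simp [h2], ?_⟩
    rw [W_append]
    have := h3.mul h3' (W_Grl l').one (by simp)
    rwa [one_mul] at this

/-- coefficientwise continuity -/
def CT (F : ℝ → R) : Prop := ∀ n, Continuous fun e => coeff n (F e)

theorem CT.mul {F G : ℝ → R} (hF : CT F) (hG : CT G) : CT fun e => F e * G e := by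
  intro n
  simp only [coeff_mul]
  exact continuous_finsetSum _ fun p _ => (hF _).mul (hG _)

theorem CT.const (g : R) : CT fun _ => g := fun _ => continuous_const

theorem CT.exg {c : ℝ → ℂ} (hc : Continuous c) (x : A) : CT fun e => exg (c e • x) := by
  intro n
  simp only [coeff_exg, smul_pow]
  have h1 : Continuous fun e : ℝ => (c e) ^ n := hc.pow n
  have h2 : Continuous fun e : ℝ => ((n.factorial : ℂ)⁻¹ * (c e) ^ n) := continuous_const.mul h1
  have h3 : Continuous fun e : ℝ => ((n.factorial : ℂ)⁻¹ * (c e) ^ n) • x ^ n :=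
    h2.smul continuous_const
  simpa only [mul_smul] using h3

theorem CT.exg_neg {c : ℝ → ℂ} (hc : Continuous c) (x : A) : CT fun e => Spl.exg (-(c e • x)) := by
  have := CT.exg (c := fun e => - c e) hc.neg x
  simpa only [neg_smul] using this

/-- shifted words -/
def sh (e : ℝ) : List (ℂ × ℂ) → List (ℂ × ℂ)
  | [] => []
  | p :: l => (p.1 + e, p.2 + e) :: sh e l

theorem sh_zero : ∀ l, sh 0 l = l
  | [] => rfl
  | p :: l => by rw [sh, sh_zero l]; simp

theorem sh_ne {e : ℝ} {l : List (ℂ × ℂ)} (h : l ≠ []) : sh e l ≠ [] := by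
  cases l with
  | nil => exact absurd rfl h
  | cons p l => simp [sh]

theorem Imag.sh {e : ℝ} (he : 0 < e) : ∀ {l : List (ℂ × ℂ)}, Imag l → Pos (sh e l)
  | [], _ => by intro p hp; simp [Spl.sh] at hp
  | q :: l, h => by
    have h1 : Imag l := fun p hp => h p (by simp [hp])
    have h2 := h q (by simp)
    intro p hp
    rw [Spl.sh] at hp
    rcases List.mem_cons.1 hp with rfl | h3
    · simp [h2.1, h2.2, he]
    · exact Imag.sh he h1 p h3

theorem CT_W : ∀ l, CT fun e => W (sh e l)
  | [] => CT.const _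
  | p :: l => by
    have h1 : Continuous fun e : ℝ => p.1 + (e : ℂ) := by fun_prop
    have h2 : Continuous fun e : ℝ => p.2 + (e : ℂ) := by fun_prop
    exact ((CT.exg h2 (X true)).mul (CT.exg h1 (X false))).mul (CT_W l)

theorem CT_Wi : ∀ l, CT fun e => Wi (sh e l)
  | [] => CT.const _
  | p :: l => by
    have h1 : Continuous fun e : ℝ => p.1 + (e : ℂ) := by fun_prop
    have h2 : Continuous fun e : ℝ => p.2 + (e : ℂ) := by fun_prop
    exact (CT_Wi l).mul ((CT.exg_neg h1 (X false)).mul (CT.exg_neg h2 (X true)))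

theorem Wi_linv (l : List (ℂ × ℂ)) : Wi (linv l) = W l := by
  have h1 := W_Wi (linv l)
  rw [W_linv] at h1
  calc Wi (linv l) = (W l * Wi l) * Wi (linv l) := by rw [W_Wi, one_mul]
    _ = W l * (Wi l * Wi (linv l)) := by rw [mul_assoc]
    _ = W l := by rw [h1, mul_one]

theorem mul_X_right {a : ℂ} (ha : 0 < a.re) : ∀ {l : List (ℂ × ℂ)}, Pos l → l ≠ [] →
    ∃ l', Pos l' ∧ W l' = W l * exg (a • X false)
  | [], _, h => absurd rfl h
  | [p], hl, _ => by
    refine ⟨[(p.1 + a, p.2)], ?_, ?_⟩
    · intro q hq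
      simp only [List.mem_cons, List.not_mem_nil, or_false] at hq
      subst hq
      have := hl p (by simp)
      exact ⟨by simp only [Complex.add_re]; linarith [this.1], this.2⟩
    · have hc : Commute (p.1 • X false) (a • X false) :=
        ((Commute.refl (X false)).smul_left _).smul_right _
      rw [show W [(p.1 + a, p.2)] = exg (p.2 • X true) * exg ((p.1 + a) • X false) * 1 from rfl,
        show W [p] = exg (p.2 • X true) * exg (p.1 • X false) * 1 from rfl, add_smul,
        ← exg_add hc]
      simp only [mul_one, mul_assoc]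
  | p :: q :: t, hl, _ => by
    have h1 : Pos (q :: t) := fun r hr => hl r (by simp only [List.mem_cons] at hr ⊢; tauto)
    obtain ⟨l', h2, h3⟩ := mul_X_right ha h1 (by simp)
    refine ⟨p :: l', ?_, ?_⟩
    · intro r hr
      rcases List.mem_cons.1 hr with rfl | hr
      · exact hl r (by simp)
      · exact h2 r hr
    · rw [W, h3]
      rw [show W (p :: q :: t) = exg (p.2 • X true) * exg (p.1 • X false) * W (q :: t) from rfl]
      simp only [mul_assoc]

theorem mul_Y_left {a : ℂ} (ha : 0 < a.re) : ∀ {l : List (ℂ × ℂ)}, Pos l → l ≠ [] →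
    ∃ l', Pos l' ∧ W l' = exg (a • X true) * W l
  | [], _, h => absurd rfl h
  | p :: t, hl, _ => by
    refine ⟨(p.1, a + p.2) :: t, ?_, ?_⟩
    · intro q hq
      rcases List.mem_cons.1 hq with rfl | hq
      · have := hl p (by simp)
        exact ⟨this.1, by simp only [Complex.add_re]; linarith [this.2]⟩
      · exact hl q (by simp [hq])
    · rw [show W ((p.1, a + p.2) :: t) = exg ((a + p.2) • X true) * exg (p.1 • X false) * W t from rfl,
        show W (p :: t) = exg (p.2 • X true) * exg (p.1 • X false) * W t from rfl, add_smul,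
        ← exg_add (((Commute.refl (X true)).smul_left _).smul_right _)]
      simp only [mul_assoc]

end H522R3.Spl
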