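import Pool.Agent.H522R3.Spl.Alg

/-! Primitive homogeneous elements of the free algebra are Lie elements. -/

open Finset
open scoped TensorProduct

noncomputable section

namespace H522R3.Spl

abbrev AA : Type := A ⊗[ℂ] A

def i1 : A →ₐ[ℂ] AA := Algebra.TensorProduct.includeLeft
def i2 : A →ₐ[ℂ] AA := Algebra.TensorProduct.includeRight
/-- the coproduct -/
def Dl : A →ₐ[ℂ] AA := FreeAlgebra.lift ℂ fun b => i1 (X b) + i2 (X b)

theorem Dl_X (b : Bool) : Dl (X b) = i1 (X b) + i2 (X b) := by
  simp [Dl, X]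

/-- linear forms -/
def M : Submodule ℂ A := Submodule.span ℂ (Set.range X)

theorem X_mem (b : Bool) : X b ∈ M := Submodule.subset_span ⟨b, rfl⟩

theorem Dl_M {x : A} (hx : x ∈ M) : Dl x = i1 x + i2 x := by
  induction hx using Submodule.span_induction with
  | mem x h => obtain ⟨b, rfl⟩ := h; exact Dl_X b
  | zero => simp
  | add x y _ _ hx hy => rw [map_add, hx, hy, map_add, map_add]; abel
  | smul a x _ hx => rw [map_smul, hx, map_smul, map_smul, smul_add]

/-- the antipode, as an algebra map to the opposite algebra -/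
def Sop : A →ₐ[ℂ] Aᵐᵒᵖ := FreeAlgebra.lift ℂ fun b => MulOpposite.op (-X b)

def S : A →ₗ[ℂ] A where
  toFun a := (Sop a).unop
  map_add' a b := by simp
  map_smul' r a := by simp

theorem S_mul (a b : A) : S (a * b) = S b * S a := by
  simp [S]

theorem S_one : S 1 = 1 := by simp [S]

theorem S_X (b : Bool) : S (X b) = - X b := by
  change (Sop (FreeAlgebra.ι ℂ b)).unop = _
  rw [Sop, FreeAlgebra.lift_ι_apply, MulOpposite.unop_op]

def Euh : A →ₐ[ℂ] TrivSqZeroExt A A :=
  FreeAlgebra.lift ℂ fun b => TrivSqZeroExt.inl (X b) + TrivSqZeroExt.inr (X b)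

theorem Euh_fst (a : A) : (Euh a).fst = a := by
  have h : (TrivSqZeroExt.fstHom ℂ A A).comp Euh = AlgHom.id ℂ A := by
    apply FreeAlgebra.hom_ext
    funext b
    simp [Euh, X]
  exact DFunLike.congr_fun h a

/-- the Euler derivation -/
def Eu : A →ₗ[ℂ] A where
  toFun a := (Euh a).snd
  map_add' a b := by simp
  map_smul' r a := by simp

theorem Eu_one : Eu 1 = 0 := by simp [Eu]

theorem Eu_mul (a b : A) : Eu (a * b) = a * Eu b + Eu a * b := by
  change (Euh (a * b)).snd = a * (Euh b).snd + (Euh a).snd * b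
  rw [map_mul, TrivSqZeroExt.snd_mul, Euh_fst, Euh_fst]
  rfl

theorem Eu_X (b : Bool) : Eu (X b) = X b := by
  change (Euh (FreeAlgebra.ι ℂ b)).snd = _
  rw [Euh, FreeAlgebra.lift_ι_apply]
  simp

theorem Eu_M {x : A} (hx : x ∈ M) : Eu x = x := by
  induction hx using Submodule.span_induction with
  | mem x h => obtain ⟨b, rfl⟩ := h; exact Eu_X b
  | zero => simp
  | add x y _ _ hx hy => rw [map_add, hx, hy]
  | smul a x _ hx => rw [map_smul, hx]

theorem S_M {x : A} (hx : x ∈ M) : S x = -x := by
  induction hx using Submodule.span_induction with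
  | mem x h => obtain ⟨b, rfl⟩ := h; exact S_X b
  | zero => simp
  | add x y _ _ hx hy => rw [map_add, hx, hy, neg_add]
  | smul a x _ hx => rw [map_smul, hx, smul_neg]

theorem Eu_pow {n : ℕ} {x : A} (hx : x ∈ M ^ n) : Eu x = (n : ℂ) • x := by
  induction n generalizing x with
  | zero =>
    rw [pow_zero] at hx
    obtain ⟨r, rfl⟩ := Submodule.mem_one.1 hx
    rw [Algebra.algebraMap_eq_smul_one, map_smul, Eu_one]; simp
  | succ n ih =>
    rw [pow_succ] at hx
    induction hx using Submodule.mul_induction_on' with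
    | mem_mul_mem a ha b hb =>
      rw [Eu_mul, ih ha, Eu_M hb]
      push_cast
      rw [add_smul, one_smul, smul_mul_assoc, add_comm]
    | add x _ y _ hx hy => rw [map_add, hx, hy, smul_add]

def Phi : AA →ₗ[ℂ] A := (LinearMap.mul' ℂ A) ∘ₗ (TensorProduct.map S Eu)
def Psi : AA →ₗ[ℂ] A := (LinearMap.mul' ℂ A) ∘ₗ (TensorProduct.map S LinearMap.id)

theorem Phi_tmul (a b : A) : Phi (a ⊗ₜ b) = S a * Eu b := by simp [Phi]
theorem Psi_tmul (a b : A) : Psi (a ⊗ₜ b) = S a * b := by simp [Psi]

theorem Phi_mul {x : A} (hx : x ∈ M) (z : AA) :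
    Phi (z * Dl x) = Phi z * x - x * Phi z + Psi z * x := by
  rw [Dl_M hx]
  induction z using TensorProduct.induction_on with
  | zero => simp
  | tmul a b =>
    rw [mul_add, map_add, i1, i2, Algebra.TensorProduct.includeLeft_apply,
      Algebra.TensorProduct.includeRight_apply, Algebra.TensorProduct.tmul_mul_tmul,
      Algebra.TensorProduct.tmul_mul_tmul, mul_one, mul_one, Phi_tmul, Phi_tmul, Phi_tmul,
      Psi_tmul, S_mul, S_M hx, Eu_mul, Eu_M hx]
    noncomm_ring
  | add z w hz hw =>
    rw [add_mul, map_add, hz, hw, map_add, map_add]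
    noncomm_ring

theorem Psi_mul {x : A} (hx : x ∈ M) (z : AA) :
    Psi (z * Dl x) = Psi z * x - x * Psi z := by
  rw [Dl_M hx]
  induction z using TensorProduct.induction_on with
  | zero => simp
  | tmul a b =>
    rw [mul_add, map_add, i1, i2, Algebra.TensorProduct.includeLeft_apply,
      Algebra.TensorProduct.includeRight_apply, Algebra.TensorProduct.tmul_mul_tmul,
      Algebra.TensorProduct.tmul_mul_tmul, mul_one, mul_one, Psi_tmul, Psi_tmul,
      Psi_tmul, S_mul, S_M hx]
    noncomm_ring
  | add z w hz hw =>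
    rw [add_mul, map_add, hz, hw, map_add]
    noncomm_ring

/-- Lie elements of degree `n + 1` -/
def L : ℕ → Submodule ℂ A
  | 0 => M
  | n + 1 => Submodule.span ℂ {z | ∃ l ∈ L n, ∃ b, z = l * X b - X b * l}

theorem L_succ_mem {n : ℕ} {l x : A} (hl : l ∈ L n) (hx : x ∈ M) : l * x - x * l ∈ L (n + 1) := by
  induction hx using Submodule.span_induction with
  | mem x h => obtain ⟨b, rfl⟩ := h; exact Submodule.subset_span ⟨l, hl, b, rfl⟩
  | zero => simp
  | add x y _ _ hx hy =>
    have : l * (x + y) - (x + y) * l = (l * x - x * l) + (l * y - y * l) := by noncomm_ring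
    rw [this]; exact Submodule.add_mem _ hx hy
  | smul a x _ hx =>
    have : l * (a • x) - (a • x) * l = a • (l * x - x * l) := by
      rw [mul_smul_comm, smul_mul_assoc, smul_sub]
    rw [this]; exact Submodule.smul_mem _ _ hx

theorem L_le : ∀ n : ℕ, L n ≤ M ^ (n + 1)
  | 0 => by rw [zero_add, pow_one]; exact le_refl _
  | n + 1 => by
    refine Submodule.span_le.2 ?_
    rintro z ⟨l, hl, b, rfl⟩
    have h := L_le n hl
    refine Submodule.sub_mem _ ?_ ?_
    · rw [pow_succ]; exact Submodule.mul_mem_mul h (X_mem b)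
    · rw [pow_succ']; exact Submodule.mul_mem_mul (X_mem b) h

theorem Psi_pow {n : ℕ} {x : A} (hx : x ∈ M ^ (n + 1)) : Psi (Dl x) = 0 := by
  induction n generalizing x with
  | zero =>
    rw [zero_add, pow_one] at hx
    have := Psi_mul hx 1
    rw [one_mul] at this
    rw [this, Algebra.TensorProduct.one_def, Psi_tmul, S_one]
    simp
  | succ n ih =>
    rw [pow_succ] at hx
    induction hx using Submodule.mul_induction_on' with
    | mem_mul_mem a ha b hb => rw [map_mul, Psi_mul hb, ih ha]; simp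
    | add x _ y _ hx hy => rw [map_add, map_add, hx, hy, add_zero]

theorem Phi_pow {n : ℕ} {x : A} (hx : x ∈ M ^ (n + 1)) : Phi (Dl x) ∈ L n := by
  induction n generalizing x with
  | zero =>
    rw [zero_add, pow_one] at hx
    have := Phi_mul hx 1
    rw [one_mul] at this
    rw [this, Algebra.TensorProduct.one_def, Psi_tmul, Phi_tmul, S_one, Eu_one]
    simpa [L] using hx
  | succ n ih =>
    rw [pow_succ] at hx
    induction hx using Submodule.mul_induction_on' with
    | mem_mul_mem a ha b hb =>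
      rw [map_mul, Phi_mul hb, Psi_pow ha, zero_mul, add_zero]
      exact L_succ_mem (ih ha) hb
    | add x _ y _ hx hy => rw [map_add, map_add]; exact Submodule.add_mem _ hx hy

/-- homogeneous primitive elements are Lie elements -/
theorem prim_mem_L {n : ℕ} {x : A} (hx : x ∈ M ^ (n + 1)) (hp : Dl x = i1 x + i2 x) :
    x ∈ L n := by
  have h := Phi_pow hx
  rw [hp, map_add, i1, i2, Algebra.TensorProduct.includeLeft_apply,
    Algebra.TensorProduct.includeRight_apply, Phi_tmul, Phi_tmul, Eu_one, S_one, mul_zero,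
    zero_add, one_mul, Eu_pow hx] at h
  have h2 := Submodule.smul_mem _ ((((n + 1 : ℕ) : ℂ))⁻¹) h
  rwa [smul_smul, inv_mul_cancel₀ (by exact_mod_cast Nat.succ_ne_zero n), one_smul] at h2

theorem fin_M : (M : Submodule ℂ A).FG := by
  unfold M
  exact Submodule.fg_span (Set.finite_range X)

theorem fin_pow (n : ℕ) : (M ^ n : Submodule ℂ A).FG := Submodule.FG.pow fin_M n

theorem fin_L (n : ℕ) : FiniteDimensional ℂ (L n) := by
  have h : FiniteDimensional ℂ (M ^ (n + 1) : Submodule ℂ A) :=
    Module.Finite.iff_fg.2 (fin_pow (n + 1))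
  exact Submodule.finiteDimensional_of_le (L_le n)

end H522R3.Spl
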