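import Pool.Agent.H522R3.Spl.Flow

/-! Expansions of compositions of flows. -/

open Filter Topology Metric Set Asymptotics
open scoped ContDiff

noncomputable section

namespace H522R3.Spl

section flow
variable {V : Type} [NormedAddCommGroup V] [NormedSpace ℝ V] [NormedSpace ℂ V]
  [IsScalarTower ℝ ℂ V] [FiniteDimensional ℂ V]

open Classical in
/-- the flow map -/
def fl (f : V → V) (τ : ℂ) (x : V) : V := if h : ∃ y, IsFlow f τ x y then h.choose else x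

theorem fl_spec {f : V → V} {τ : ℂ} {x : V} (h : ∃ y, IsFlow f τ x y) : IsFlow f τ x (fl f τ x) := by
  unfold fl
  rw [dif_pos h]
  exact h.choose_spec

theorem fl_eq {f : V → V} (hf : ContDiff ℂ ∞ f) {τ : ℂ} {x y : V} (h : IsFlow f τ x y) :
    y = fl f τ x := h.unique hf (fl_spec ⟨y, h⟩)

abbrev nn (x0 : V) : Filter (ℝ × V) := 𝓝[>] (0:ℝ) ×ˢ 𝓝 x0

def HasExp (N : ℕ) (Φ : ℝ → V → V) (a : ℕ → Module.End ℂ (Sm V)) (x0 : V) : Prop :=
  ∀ g : Sm V, (fun p : ℝ × V => g.1 (Φ p.1 p.2) -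
    ∑ n ∈ Finset.range (N + 1), ((p.1 : ℂ) ^ n) • ((a n g).1 p.2)) =O[nn x0]
      fun p => p.1 ^ (N + 1)

theorem fst_tendsto (x0 : V) : Tendsto (fun p : ℝ × V => p.1) (nn x0) (𝓝[>] (0:ℝ)) := tendsto_fst

theorem snd_tendsto (x0 : V) : Tendsto (fun p : ℝ × V => p.2) (nn x0) (𝓝 x0) := tendsto_snd

theorem small_ev (x0 : V) (α : ℂ) {δ : ℝ} (hδ : 0 < δ) :
    ∀ᶠ p in nn x0, 0 < p.1 ∧ ‖α * (p.1 : ℂ)‖ ≤ δ ∧ p.2 ∈ closedBall x0 (1 / 2) := by
  have h1 : ∀ᶠ t : ℝ in 𝓝[>] (0:ℝ), 0 < t := self_mem_nhdsWithin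
  have h2 : ∀ᶠ t : ℝ in 𝓝[>] (0:ℝ), ‖α * (t : ℂ)‖ ≤ δ := by
    have h3 : Continuous fun t : ℝ => ‖α * (t : ℂ)‖ := by fun_prop
    have h4 : ∀ᶠ t : ℝ in 𝓝 (0:ℝ), ‖α * (t : ℂ)‖ < δ :=
      h3.continuousAt.eventually_lt continuousAt_const (by simpa using hδ)
    exact (h4.filter_mono nhdsWithin_le_nhds).mono fun t ht => ht.le
  have h5 : ∀ᶠ x in 𝓝 x0, x ∈ closedBall x0 (1 / 2) := closedBall_mem_nhds _ (by norm_num)
  exact ((fst_tendsto x0).eventually h1).and (((fst_tendsto x0).eventually h2).and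
    ((snd_tendsto x0).eventually h5))

theorem flow_ev {f : V → V} (hf : ContDiff ℂ ∞ f) (α : ℂ) (x0 : V) :
    ∀ᶠ p in nn x0, IsFlow f (α * (p.1 : ℂ)) p.2 (fl f (α * (p.1 : ℂ)) p.2) := by
  obtain ⟨δ, hδ, h⟩ := local_flow hf x0
  filter_upwards [small_ev x0 α hδ] with p hp
  obtain ⟨γ, h1, h2, h3⟩ := h p.2 hp.2.2 _ hp.2.1
  exact fl_spec ⟨γ 1, γ, h1, rfl, h2⟩

/-- expansion of one flow -/
theorem exp_single {f : V → V} (hf : ContDiff ℂ ∞ f) (α : ℂ) (x0 : V) (N : ℕ) :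
    HasExp N (fun t x => fl f (α * (t : ℂ)) x)
      (fun n => ((n.factorial : ℂ)⁻¹) • (α • Dop f hf) ^ n) x0 := by
  intro g
  have : ProperSpace V := FiniteDimensional.proper ℂ V
  obtain ⟨δ, hδ, h⟩ := local_flow hf x0
  obtain ⟨C, hC⟩ := (isCompact_closedBall x0 1).exists_bound_of_continuousOn
    (cd (((Dop f hf) ^ (N + 1)) g)).continuous.continuousOn
  refine IsBigO.of_bound (‖α‖ ^ (N + 1) * C) ?_
  filter_upwards [small_ev x0 α hδ] with p hp
  obtain ⟨γ, h1, h2, h3⟩ := h p.2 hp.2.2 _ hp.2.1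
  have h4 : γ 1 = fl f (α * (p.1 : ℂ)) p.2 := fl_eq hf ⟨γ, h1, rfl, h2⟩
  have h5 := taylor hf h2 h3 (N + 1) g C hC 1 (right_mem_Icc.2 zero_le_one)
  rw [h4, h1] at h5
  have h6 : ∑ n ∈ Finset.range (N + 1), ((α * (p.1 : ℂ) * ((1:ℝ) : ℂ)) ^ n *
      ((n.factorial : ℂ)⁻¹)) • (((Dop f hf) ^ n) g).1 p.2 =
      ∑ n ∈ Finset.range (N + 1), ((p.1 : ℂ) ^ n) •
        (((((n.factorial : ℂ)⁻¹) • (α • Dop f hf) ^ n : Module.End ℂ (Sm V)) g).1 p.2) := by
    refine Finset.sum_congr rfl fun n _ => ?_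
    rw [smul_pow]
    change _ = ((p.1 : ℂ) ^ n) • ((((n.factorial : ℂ)⁻¹)) • (α ^ n • (((Dop f hf) ^ n) g).1 p.2))
    rw [smul_smul, smul_smul]
    congr 1
    push_cast
    ring
  rw [h6] at h5
  refine h5.trans (le_of_eq ?_)
  rw [norm_mul, Complex.norm_real, mul_pow, Real.norm_eq_abs, Real.norm_eq_abs, abs_pow]
  ring

theorem HasExp.tendsto {Φ : ℝ → V → V} {a : ℕ → Module.End ℂ (Sm V)} {x0 : V}
    (h : HasExp 0 Φ a x0) (h0 : a 0 = 1) :
    Tendsto (fun p : ℝ × V => Φ p.1 p.2) (nn x0) (𝓝 x0) := by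
  have h1 := h ⟨id, mem_Sm.2 contDiff_id⟩
  simp only [zero_add, Finset.range_one, Finset.sum_singleton, pow_zero, one_smul, h0, pow_one] at h1
  have h2 : Tendsto (fun p : ℝ × V => p.1) (nn x0) (𝓝 0) :=
    (fst_tendsto x0).mono_right nhdsWithin_le_nhds
  have h3 := h1.trans_tendsto h2
  have h4 := h3.add (snd_tendsto x0)
  rw [zero_add] at h4
  refine h4.congr fun p => ?_
  simp

theorem HasExp.mono {N K : ℕ} {Φ : ℝ → V → V} {a : ℕ → Module.End ℂ (Sm V)} {x0 : V}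
    (h : HasExp N Φ a x0) (hK : K ≤ N) : HasExp K Φ a x0 := by
  intro g
  have h1 := h g
  have h2 : (fun p : ℝ × V => p.1 ^ (N + 1)) =O[nn x0] fun p => p.1 ^ (K + 1) := by
    refine IsBigO.of_bound 1 ?_
    have h3 : ∀ᶠ t : ℝ in 𝓝[>] (0:ℝ), t ≤ 1 :=
      (eventually_le_nhds zero_lt_one).filter_mono nhdsWithin_le_nhds
    have h4 : ∀ᶠ t : ℝ in 𝓝[>] (0:ℝ), 0 < t := self_mem_nhdsWithin
    filter_upwards [(fst_tendsto x0).eventually h3, (fst_tendsto x0).eventually h4] with p hp hp0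
    rw [one_mul, norm_pow, norm_pow, Real.norm_of_nonneg hp0.le]
    exact pow_le_pow_of_le_one hp0.le hp (by omega)
  have h3 : (fun p : ℝ × V => ∑ n ∈ Finset.Ico (K + 1) (N + 1), ((p.1 : ℂ) ^ n) • ((a n g).1 p.2))
      =O[nn x0] fun p => p.1 ^ (K + 1) := by
    refine IsBigO.fun_sum fun n hn => ?_
    rw [Finset.mem_Ico] at hn
    have h5 : (fun p : ℝ × V => (p.1 : ℂ) ^ n) =O[nn x0] fun p => p.1 ^ (K + 1) := by
      refine IsBigO.of_bound 1 ?_
      have h3 : ∀ᶠ t : ℝ in 𝓝[>] (0:ℝ), t ≤ 1 :=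
        (eventually_le_nhds zero_lt_one).filter_mono nhdsWithin_le_nhds
      have h4 : ∀ᶠ t : ℝ in 𝓝[>] (0:ℝ), 0 < t := self_mem_nhdsWithin
      filter_upwards [(fst_tendsto x0).eventually h3, (fst_tendsto x0).eventually h4] with p hp hp0
      rw [one_mul, norm_pow, norm_pow, Complex.norm_real, Real.norm_of_nonneg hp0.le]
      exact pow_le_pow_of_le_one hp0.le hp (by omega)
    have h6 : (fun p : ℝ × V => (a n g).1 p.2) =O[nn x0] fun _ => (1:ℝ) := by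
      have : Tendsto (fun p : ℝ × V => (a n g).1 p.2) (nn x0) (𝓝 ((a n g).1 x0)) :=
        (cd (a n g)).continuous.continuousAt.tendsto.comp (snd_tendsto x0)
      exact this.isBigO_one ℝ
    have := h5.smul h6
    simpa using this
  have h4 := (h1.trans h2).add h3
  refine h4.congr_left fun p => ?_
  rw [Finset.range_eq_Ico, ← Finset.sum_Ico_consecutive _ (Nat.zero_le (K + 1)) (by omega : K + 1 ≤ N + 1)]
  rw [Finset.range_eq_Ico]
  abel

/-- the double sum against the Cauchy product -/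
theorem double_sum (N : ℕ) (u : ℕ → ℕ → V → V) (hu : ∀ m n, Continuous (u m n)) (x0 : V) :
    (fun p : ℝ × V => ∑ m ∈ Finset.range (N + 1), ∑ n ∈ Finset.range (N + 1),
      ((p.1 : ℂ) ^ (m + n)) • u m n p.2 -
      ∑ k ∈ Finset.range (N + 1), ∑ q ∈ Finset.HasAntidiagonal.antidiagonal k, ((p.1 : ℂ) ^ (q.1 + q.2)) • u q.1 q.2 p.2)
      =O[nn x0] fun p => p.1 ^ (N + 1) := by
  have h1 : ∀ p : ℝ × V, ∑ m ∈ Finset.range (N + 1), ∑ n ∈ Finset.range (N + 1),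
      ((p.1 : ℂ) ^ (m + n)) • u m n p.2 -
      ∑ k ∈ Finset.range (N + 1), ∑ q ∈ Finset.HasAntidiagonal.antidiagonal k, ((p.1 : ℂ) ^ (q.1 + q.2)) • u q.1 q.2 p.2
      = ∑ q ∈ (Finset.range (N + 1) ×ˢ Finset.range (N + 1)).filter (fun q => ¬ q.1 + q.2 ≤ N),
        ((p.1 : ℂ) ^ (q.1 + q.2)) • u q.1 q.2 p.2 := by
    intro p
    rw [← Finset.sum_product', ← Finset.sum_filter_add_sum_filter_not _ (fun q => q.1 + q.2 ≤ N),
      ← Finset.sum_fiberwise_of_maps_to (s := (Finset.range (N + 1) ×ˢ Finset.range (N + 1)).filter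
        (fun q => q.1 + q.2 ≤ N)) (t := Finset.range (N + 1)) (g := fun q => q.1 + q.2)
        (by intro q hq; simp only [Finset.mem_filter] at hq; simp; omega)]
    have h2 : ∀ k ∈ Finset.range (N + 1), ((Finset.range (N + 1) ×ˢ Finset.range (N + 1)).filter
        (fun q => q.1 + q.2 ≤ N)).filter (fun q => q.1 + q.2 = k) = Finset.HasAntidiagonal.antidiagonal k := by
      intro k hk
      ext q
      simp only [Finset.mem_filter, Finset.mem_product, Finset.mem_range,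
        Finset.HasAntidiagonal.mem_antidiagonal] at hk ⊢
      constructor
      · rintro ⟨_, h⟩; exact h
      · intro h; omega
    rw [Finset.sum_congr rfl (fun k hk => by rw [h2 k hk])]
    abel
  simp only [h1]
  refine IsBigO.fun_sum fun q hq => ?_
  simp only [Finset.mem_filter, not_le] at hq
  have h5 : (fun p : ℝ × V => (p.1 : ℂ) ^ (q.1 + q.2)) =O[nn x0] fun p => p.1 ^ (N + 1) := by
    refine IsBigO.of_bound 1 ?_
    have h3 : ∀ᶠ t : ℝ in 𝓝[>] (0:ℝ), t ≤ 1 :=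
      (eventually_le_nhds zero_lt_one).filter_mono nhdsWithin_le_nhds
    have h4 : ∀ᶠ t : ℝ in 𝓝[>] (0:ℝ), 0 < t := self_mem_nhdsWithin
    filter_upwards [(fst_tendsto x0).eventually h3, (fst_tendsto x0).eventually h4] with p hp hp0
    rw [one_mul, norm_pow, norm_pow, Complex.norm_real, Real.norm_of_nonneg hp0.le]
    exact pow_le_pow_of_le_one hp0.le hp (by omega)
  have h6 : (fun p : ℝ × V => u q.1 q.2 p.2) =O[nn x0] fun _ => (1:ℝ) := by
    have : Tendsto (fun p : ℝ × V => u q.1 q.2 p.2) (nn x0) (𝓝 (u q.1 q.2 x0)) :=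
      (hu _ _).continuousAt.tendsto.comp (snd_tendsto x0)
    exact this.isBigO_one ℝ
  have := h5.smul h6
  simpa using this

/-- expansion of a composition -/
theorem HasExp.comp {N : ℕ} {Φ Ψ : ℝ → V → V} {a b : ℕ → Module.End ℂ (Sm V)} {x0 : V}
    (hΦ : HasExp N Φ a x0) (h0 : a 0 = 1) (hΨ : HasExp N Ψ b x0) :
    HasExp N (fun t x => Ψ t (Φ t x))
      (fun n => ∑ q ∈ Finset.HasAntidiagonal.antidiagonal n, a q.1 * b q.2) x0 := by
  intro g
  have ht : Tendsto (fun p : ℝ × V => (p.1, Φ p.1 p.2)) (nn x0) (nn x0) :=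
    (fst_tendsto x0).prodMk ((hΦ.mono (Nat.zero_le N)).tendsto h0)
  have h1 := (hΨ g).comp_tendsto ht
  have h2 : ∀ m ∈ Finset.range (N + 1), (fun p : ℝ × V => ((p.1 : ℂ) ^ m) • ((b m g).1 (Φ p.1 p.2) -
      ∑ n ∈ Finset.range (N + 1), ((p.1 : ℂ) ^ n) • ((a n (b m g)).1 p.2))) =O[nn x0]
      fun p => p.1 ^ (N + 1) := by
    intro m _
    have h3 : (fun p : ℝ × V => (p.1 : ℂ) ^ m) =O[nn x0] fun _ => (1:ℝ) := by
      have h4 : Tendsto (fun p : ℝ × V => (p.1 : ℂ) ^ m) (nn x0) (𝓝 (((0:ℝ) : ℂ) ^ m)) := by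
        have h5 : Tendsto (fun p : ℝ × V => p.1) (nn x0) (𝓝 0) :=
          (fst_tendsto x0).mono_right nhdsWithin_le_nhds
        exact ((Complex.continuous_ofReal.tendsto 0).comp h5).pow m
      exact h4.isBigO_one ℝ
    have := h3.smul (hΦ (b m g))
    simpa using this
  have h3 := IsBigO.fun_sum h2
  have h4 := double_sum N (fun m n x => (a n (b m g)).1 x)
    (fun m n => (cd (a n (b m g))).continuous) x0
  have h5 := (h1.add h3).add h4
  refine (h5.congr_left fun p => ?_).congr_right fun p => rfl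
  simp only [Function.comp_apply]
  have e1 : ∑ m ∈ Finset.range (N + 1), ((p.1 : ℂ) ^ m) • ((b m g).1 (Φ p.1 p.2) -
      ∑ n ∈ Finset.range (N + 1), ((p.1 : ℂ) ^ n) • ((a n (b m g)).1 p.2)) =
      ∑ m ∈ Finset.range (N + 1), ((p.1 : ℂ) ^ m) • (b m g).1 (Φ p.1 p.2) -
      ∑ m ∈ Finset.range (N + 1), ∑ n ∈ Finset.range (N + 1),
        ((p.1 : ℂ) ^ (m + n)) • ((a n (b m g)).1 p.2) := by
    rw [← Finset.sum_sub_distrib]
    refine Finset.sum_congr rfl fun m _ => ?_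
    rw [smul_sub, Finset.smul_sum]
    congr 1
    refine Finset.sum_congr rfl fun n _ => ?_
    rw [smul_smul, pow_add]
  have e2 : ∑ k ∈ Finset.range (N + 1), ∑ q ∈ Finset.HasAntidiagonal.antidiagonal k,
      ((p.1 : ℂ) ^ (q.1 + q.2)) • ((a q.2 (b q.1 g)).1 p.2) =
      ∑ n ∈ Finset.range (N + 1), ((p.1 : ℂ) ^ n) •
        (((∑ q ∈ Finset.HasAntidiagonal.antidiagonal n, a q.1 * b q.2 : Module.End ℂ (Sm V)) g).1 p.2) := by
    refine Finset.sum_congr rfl fun k _ => ?_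
    have e3 : (((∑ q ∈ Finset.HasAntidiagonal.antidiagonal k, a q.1 * b q.2 : Module.End ℂ (Sm V)) g).1 p.2) =
        ∑ q ∈ Finset.HasAntidiagonal.antidiagonal k, (a q.1 (b q.2 g)).1 p.2 := by
      rw [LinearMap.sum_apply, Submodule.coe_sum, Finset.sum_apply]
      rfl
    rw [e3, Finset.smul_sum, ← Finset.sum_equiv (Equiv.prodComm ℕ ℕ) (s := Finset.HasAntidiagonal.antidiagonal k)]
    · intro q
      simp only [Finset.HasAntidiagonal.mem_antidiagonal, Equiv.prodComm_apply, Prod.fst_swap,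
        Prod.snd_swap]
      rw [add_comm]
    · intro q hq
      rw [Finset.HasAntidiagonal.mem_antidiagonal] at hq
      simp only [Equiv.prodComm_apply, Prod.fst_swap, Prod.snd_swap]
      rw [add_comm q.2 q.1, hq]
  rw [e1, e2]
  abel

end flow

end H522R3.Spl
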