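import Pool.Agent.H522R3.Spl.Expn

/-! Splitting methods. -/

open Filter Topology Metric Set Asymptotics
open scoped ContDiff

noncomputable section

namespace H522R3.Spl

section flow
variable {V : Type} [NormedAddCommGroup V] [NormedSpace ℝ V] [NormedSpace ℂ V]
  [IsScalarTower ℝ ℂ V] [FiniteDimensional ℂ V]

/-- the action of the free algebra -/
def rho (D0 D1 : Module.End ℂ (Sm V)) : A →ₐ[ℂ] Module.End ℂ (Sm V) :=
  FreeAlgebra.lift ℂ fun b => cond b D1 D0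

theorem rho_X (D0 D1 : Module.End ℂ (Sm V)) (b : Bool) : rho D0 D1 (X b) = cond b D1 D0 := by
  rw [rho, X, FreeAlgebra.lift_ι_apply]

theorem rho_exg (D0 D1 : Module.End ℂ (Sm V)) (α : ℂ) (x : A) (n : ℕ) :
    rho D0 D1 (PowerSeries.coeff n (exg (α • x))) =
      ((n.factorial : ℂ)⁻¹) • (α • rho D0 D1 x) ^ n := by
  rw [coeff_exg, map_smul, map_pow, map_smul]

theorem rho_mul (D0 D1 : Module.End ℂ (Sm V)) (P Q : R) (n : ℕ) :
    rho D0 D1 (PowerSeries.coeff n (P * Q)) = ∑ q ∈ Finset.HasAntidiagonal.antidiagonal n,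
      rho D0 D1 (PowerSeries.coeff q.1 P) * rho D0 D1 (PowerSeries.coeff q.2 Q) := by
  rw [PowerSeries.coeff_mul, map_sum]
  simp only [map_mul]

/-- the composition `e^{α₁ T f₀} e^{β₁ T f₁} ⋯ e^{α_k T f₀} e^{β_k T f₁}` -/
def spl (f0 f1 : V → V) : List (ℂ × ℂ) → ℝ → V → V
  | [], _, x => x
  | p :: l, t, x => fl f0 (p.1 * (t : ℂ)) (fl f1 (p.2 * (t : ℂ)) (spl f0 f1 l t x))

def WR : List (ℂ × ℂ) → R
  | [] => 1
  | p :: l => WR l * exg (p.2 • X true) * exg (p.1 • X false)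

theorem WR_eq : ∀ l, WR l = W l.reverse
  | [] => rfl
  | p :: l => by
    rw [WR, WR_eq l, List.reverse_cons, W_append]
    simp only [W, mul_one, mul_assoc]

theorem exp_spl {f0 f1 : V → V} (h0 : ContDiff ℂ ∞ f0) (h1 : ContDiff ℂ ∞ f1) (x0 : V) (N : ℕ) :
    ∀ l, HasExp N (spl f0 f1 l)
      (fun n => rho (Dop f0 h0) (Dop f1 h1) (PowerSeries.coeff n (WR l))) x0
  | [] => by
    intro g
    have : ∀ p : ℝ × V, g.1 (spl f0 f1 [] p.1 p.2) - ∑ n ∈ Finset.range (N + 1), ((p.1 : ℂ) ^ n) •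
        ((rho (Dop f0 h0) (Dop f1 h1) (PowerSeries.coeff n (WR []))) g).1 p.2 = 0 := by
      intro p
      rw [Finset.sum_range_succ', WR, Finset.sum_eq_zero]
      · simp [spl, PowerSeries.coeff_one]
      · intro n _
        rw [PowerSeries.coeff_one, if_neg (Nat.succ_ne_zero n), map_zero]
        simp
    simp only [this]
    exact isBigO_zero _ _
  | p :: l => by
    have e1 := exp_spl h0 h1 x0 N l
    have e2 := e1.comp (by rw [WR_eq, (W_Grl _).one, map_one]) (exp_single h1 p.2 x0 N)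
    have e3 : (fun n => ∑ q ∈ Finset.HasAntidiagonal.antidiagonal n,
        rho (Dop f0 h0) (Dop f1 h1) (PowerSeries.coeff q.1 (WR l)) *
        (((q.2.factorial : ℂ)⁻¹) • (p.2 • Dop f1 h1) ^ q.2)) = fun n =>
        rho (Dop f0 h0) (Dop f1 h1) (PowerSeries.coeff n (WR l * exg (p.2 • X true))) := by
      funext n
      rw [rho_mul]
      refine Finset.sum_congr rfl fun q _ => ?_
      rw [rho_exg, rho_X]
      rfl
    rw [e3] at e2
    have e4 := e2.comp (by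
      rw [coeff_zero_mul', WR_eq, (W_Grl _).one, coeff_exg_zero, mul_one, map_one])
      (exp_single h0 p.1 x0 N)
    have e5 : (fun n => ∑ q ∈ Finset.HasAntidiagonal.antidiagonal n,
        rho (Dop f0 h0) (Dop f1 h1) (PowerSeries.coeff q.1 (WR l * exg (p.2 • X true))) *
        (((q.2.factorial : ℂ)⁻¹) • (p.1 • Dop f0 h0) ^ q.2)) = fun n =>
        rho (Dop f0 h0) (Dop f1 h1) (PowerSeries.coeff n (WR (p :: l))) := by
      funext n
      rw [WR, rho_mul]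
      refine Finset.sum_congr rfl fun q _ => ?_
      rw [rho_exg, rho_X]
      rfl
    rw [e5] at e4
    exact e4

def IsSplit (f0 f1 : V → V) (T : ℝ) : List (ℂ × ℂ) → V → V → Prop
  | [], x, y => y = x
  | p :: l, x, y => ∃ z w, IsSplit f0 f1 T l x z ∧ IsFlow f1 (p.2 * (T : ℂ)) z w ∧
      IsFlow f0 (p.1 * (T : ℂ)) w y

theorem IsSplit.eq {f0 f1 : V → V} (h0 : ContDiff ℂ ∞ f0) (h1 : ContDiff ℂ ∞ f1) {T : ℝ} :
    ∀ {l : List (ℂ × ℂ)} {x y : V}, IsSplit f0 f1 T l x y → y = spl f0 f1 l T x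
  | [], _, _, h => h
  | p :: l, x, y, h => by
    obtain ⟨z, w, h2, h3, h4⟩ := h
    have e1 := IsSplit.eq h0 h1 h2
    have e2 := fl_eq h1 h3
    have e3 := fl_eq h0 h4
    rw [e3, e2, e1]
    rfl

theorem split_ev {f0 f1 : V → V} (h0 : ContDiff ℂ ∞ f0) (h1 : ContDiff ℂ ∞ f1) (x0 : V) :
    ∀ l, ∀ᶠ p in nn x0, IsSplit f0 f1 p.1 l p.2 (spl f0 f1 l p.1 p.2)
  | [] => Eventually.of_forall fun _ => rfl
  | q :: l => by
    have ih := split_ev h0 h1 x0 l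
    have e1 := exp_spl h0 h1 x0 0 l
    have a0 : rho (Dop f0 h0) (Dop f1 h1) (PowerSeries.coeff 0 (WR l)) = 1 := by
      rw [WR_eq, (W_Grl _).one, map_one]
    have t1 := e1.tendsto a0
    have t1' : Tendsto (fun p : ℝ × V => (p.1, spl f0 f1 l p.1 p.2)) (nn x0) (nn x0) :=
      (fst_tendsto x0).prodMk t1
    have t2 := (exp_single h1 q.2 x0 0).tendsto (by simp)
    have t3 : Tendsto (fun p : ℝ × V => fl f1 (q.2 * (p.1 : ℂ)) (spl f0 f1 l p.1 p.2))
        (nn x0) (𝓝 x0) := t2.comp t1'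
    have t3' : Tendsto (fun p : ℝ × V => (p.1, fl f1 (q.2 * (p.1 : ℂ)) (spl f0 f1 l p.1 p.2)))
        (nn x0) (nn x0) := (fst_tendsto x0).prodMk t3
    have v1 := t1'.eventually (flow_ev h1 q.2 x0)
    have v2 := t3'.eventually (flow_ev h0 q.1 x0)
    filter_upwards [ih, v1, v2] with p p1 p2 p3
    exact ⟨_, _, p1, p2, p3⟩

theorem Dop_add {f0 f1 : V → V} (h0 : ContDiff ℂ ∞ f0) (h1 : ContDiff ℂ ∞ f1)
    (h01 : ContDiff ℂ ∞ (f0 + f1)) :
    Dop (f0 + f1) h01 = Dop f0 h0 + Dop f1 h1 := by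
  ext g x
  change fderiv ℂ g.1 x (f0 x + f1 x) = fderiv ℂ g.1 x (f0 x) + fderiv ℂ g.1 x (f1 x)
  rw [map_add]

/-- The order condition for a positive word. -/
theorem main {f0 f1 : V → V} (h0 : ContDiff ℂ ∞ f0) (h1 : ContDiff ℂ ∞ f1) (x0 : V) {N : ℕ}
    {l : List (ℂ × ℂ)} (hl : ∀ j ≤ N, PowerSeries.coeff j (W l.reverse) =
      PowerSeries.coeff j (E 1)) :
    ∃ C : ℝ, ∀ᶠ T : ℝ in 𝓝[>] 0, ∃ y z, (∀ y', IsFlow (f0 + f1) (T : ℂ) x0 y' ↔ y' = y) ∧
      (∀ z', IsSplit f0 f1 T l x0 z' ↔ z' = z) ∧ ‖y - z‖ ≤ C * T ^ (N + 1) := by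
  have h01 : ContDiff ℂ ∞ (f0 + f1) := h0.add h1
  have ht : Tendsto (fun T : ℝ => (T, x0)) (𝓝[>] 0) (nn x0) :=
    tendsto_id.prodMk tendsto_const_nhds
  have e1 := exp_spl h0 h1 x0 N l ⟨id, mem_Sm.2 contDiff_id⟩
  have e2 := exp_single h01 1 x0 N ⟨id, mem_Sm.2 contDiff_id⟩
  have e3 : ∀ p : ℝ × V, ∑ n ∈ Finset.range (N + 1), ((p.1 : ℂ) ^ n) •
      (((((n.factorial : ℂ)⁻¹) • ((1:ℂ) • Dop (f0 + f1) h01) ^ n : Module.End ℂ (Sm V))
        ⟨id, mem_Sm.2 contDiff_id⟩).1 p.2) =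
      ∑ n ∈ Finset.range (N + 1), ((p.1 : ℂ) ^ n) •
      ((rho (Dop f0 h0) (Dop f1 h1) (PowerSeries.coeff n (WR l)) ⟨id, mem_Sm.2 contDiff_id⟩).1 p.2) := by
    intro p
    refine Finset.sum_congr rfl fun n hn => ?_
    rw [WR_eq, hl n (by simpa [Nat.lt_succ_iff] using hn), E, rho_exg, map_add, rho_X, rho_X,
      Dop_add h0 h1 h01]
    rfl
  have e4 := (e2.sub e1).comp_tendsto ht
  obtain ⟨C, hC⟩ := e4.bound
  refine ⟨C, ?_⟩
  have v1 := ht.eventually (flow_ev h01 1 x0)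
  have v2 := ht.eventually (split_ev h0 h1 x0 l)
  have hpos : ∀ᶠ T : ℝ in 𝓝[>] 0, 0 < T := self_mem_nhdsWithin
  filter_upwards [hC, v1, v2, hpos] with T c1 c2 c3 c4
  refine ⟨fl (f0 + f1) (1 * (T : ℂ)) x0, spl f0 f1 l T x0, ?_, ?_, ?_⟩
  · intro y'
    constructor
    · intro h
      rw [one_mul]
      exact fl_eq h01 h
    · rintro rfl
      have := c2
      simpa only [one_mul] using this
  · intro z'
    constructor
    · intro h; exact IsSplit.eq h0 h1 h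
    · rintro rfl; exact c3
  · simp only [Function.comp_apply, id] at c1
    have e5 := e3 (T, x0)
    simp only at e5
    rw [e5, sub_sub_sub_cancel_right, norm_pow, Real.norm_of_nonneg c4.le] at c1
    exact c1

end flow

end H522R3.Spl
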