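import Pool.Agent.H522R3.Spl.Ind
import Pool.Agent.Helper540.Holo

/-! Flows of holomorphic vector fields and their Lie series. -/

open Filter Topology Metric Set
open scoped ContDiff

noncomputable section

namespace H522R3.Spl

section flow
variable {V : Type} [NormedAddCommGroup V] [NormedSpace ℝ V] [NormedSpace ℂ V]
  [IsScalarTower ℝ ℂ V] [FiniteDimensional ℂ V]

/-- `y = e^{τ f} x` -/
def IsFlow (f : V → V) (τ : ℂ) (x y : V) : Prop :=
  ∃ γ : ℝ → V, γ 0 = x ∧ γ 1 = y ∧
    ∀ s ∈ Icc (0:ℝ) 1, HasDerivWithinAt γ (τ • f (γ s)) (Icc 0 1) s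

theorem lip_ball {f : V → V} (hf : ContDiff ℂ ∞ f) (c : V) (r : ℝ) :
    ∃ K : NNReal, LipschitzOnWith K f (closedBall c r) := by
  have : ProperSpace V := FiniteDimensional.proper ℂ V
  have h1 : ContDiff ℝ 1 f := (hf.restrict_scalars ℝ).of_le (by norm_cast)
  exact h1.contDiffOn.exists_lipschitzOnWith (by norm_num) (convex_closedBall c r)
    (isCompact_closedBall c r)

theorem IsFlow.unique {f : V → V} (hf : ContDiff ℂ ∞ f) {τ : ℂ} {x y y' : V}
    (h : IsFlow f τ x y) (h' : IsFlow f τ x y') : y = y' := by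
  obtain ⟨γ, h0, h1, hd⟩ := h
  obtain ⟨γ', h0', h1', hd'⟩ := h'
  have hc : ContinuousOn γ (Icc 0 1) := fun s hs => (hd s hs).continuousWithinAt
  have hc' : ContinuousOn γ' (Icc 0 1) := fun s hs => (hd' s hs).continuousWithinAt
  obtain ⟨B, hB⟩ := isCompact_Icc.exists_bound_of_continuousOn hc
  obtain ⟨B', hB'⟩ := isCompact_Icc.exists_bound_of_continuousOn hc'
  obtain ⟨K, hK⟩ := lip_ball hf 0 (max B B')
  have hlip : LipschitzOnWith (‖τ‖₊ * K) (fun x => τ • f x) (closedBall 0 (max B B')) := by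
    intro a ha b hb
    have := hK ha hb
    rw [edist_smul₀]
    calc ‖τ‖₊ • edist (f a) (f b) ≤ ‖τ‖₊ • (K * edist a b) := by
          exact smul_le_smul_of_nonneg_left this (by simp)
      _ = _ := by
          rw [ENNReal.smul_def, smul_eq_mul, ENNReal.coe_mul, mul_assoc]
  have := ODE_solution_unique_of_mem_Icc_right (v := fun _ x => τ • f x)
    (s := fun _ => closedBall 0 (max B B')) (a := 0) (b := 1) (fun _ _ => hlip) hc
    (fun t ht => (hd t (Ico_subset_Icc_self ht)).mono_of_mem_nhdsWithin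
      (Icc_mem_nhdsGE_of_mem ht))
    (fun t ht => by
      rw [mem_closedBall_zero_iff]
      exact (hB t (Ico_subset_Icc_self ht)).trans (le_max_left _ _))
    hc'
    (fun t ht => (hd' t (Ico_subset_Icc_self ht)).mono_of_mem_nhdsWithin
      (Icc_mem_nhdsGE_of_mem ht))
    (fun t ht => by
      rw [mem_closedBall_zero_iff]
      exact (hB' t (Ico_subset_Icc_self ht)).trans (le_max_right _ _))
    (by rw [h0, h0'])
  have h2 := this (right_mem_Icc.2 zero_le_one)
  rw [h1, h1'] at h2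
  exact h2

/-- local existence, with a uniform radius -/
theorem local_flow {f : V → V} (hf : ContDiff ℂ ∞ f) (x0 : V) :
    ∃ δ : ℝ, 0 < δ ∧ ∀ x ∈ closedBall x0 (1 / 2), ∀ τ : ℂ, ‖τ‖ ≤ δ →
      ∃ γ : ℝ → V, γ 0 = x ∧ (∀ s ∈ Icc (0:ℝ) 1, HasDerivWithinAt γ (τ • f (γ s)) (Icc 0 1) s) ∧
        ∀ s, γ s ∈ closedBall x0 1 := by
  have : ProperSpace V := FiniteDimensional.proper ℂ V
  have : CompleteSpace V := FiniteDimensional.complete ℂ V
  obtain ⟨K, hK⟩ := lip_ball hf x0 1
  obtain ⟨B, hB⟩ := (isCompact_closedBall x0 1).exists_bound_of_continuousOn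
    hf.continuous.continuousOn
  have hB0 : 0 ≤ B := (norm_nonneg _).trans (hB x0 (mem_closedBall_self zero_le_one))
  refine ⟨1 / (2 * (B + 1)), by positivity, fun x hx τ hτ => ?_⟩
  have hpl : IsPicardLindelof (fun (_ : ℝ) x => τ • f x) (tmin := 0) (tmax := 1)
      ⟨0, left_mem_Icc.2 zero_le_one⟩ x0 1 (1 / 2) (1 / 2) (‖τ‖₊ * K) := by
    refine ⟨fun t _ => ?_, fun x _ => continuousOn_const, fun t _ x hx => ?_, ?_⟩
    · intro a ha b hb
      have := hK (by simpa using ha) (by simpa using hb)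
      rw [edist_smul₀]
      calc ‖τ‖₊ • edist (f a) (f b) ≤ ‖τ‖₊ • (K * edist a b) := by
            exact smul_le_smul_of_nonneg_left this (by simp)
        _ = _ := by
            rw [ENNReal.smul_def, smul_eq_mul, ENNReal.coe_mul, mul_assoc]
    · rw [norm_smul]
      have h1 := hB x (by simpa using hx)
      have h2 : ‖τ‖ * ‖f x‖ ≤ 1 / (2 * (B + 1)) * (B + 1) :=
        mul_le_mul hτ (by linarith) (norm_nonneg _) (by positivity)
      have h3 : 1 / (2 * (B + 1)) * (B + 1) = 1 / 2 := by field_simp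
      rw [h3] at h2
      simpa using h2
    · simp; norm_num
  obtain ⟨α, hα⟩ := ODE.FunSpace.exists_isFixedPt_next hpl (x := x) (by simpa using hx)
  refine ⟨α.compProj, ?_, ?_, fun s => ?_⟩
  · have : α.compProj ((⟨0, left_mem_Icc.2 zero_le_one⟩ : Icc (0:ℝ) 1) : ℝ) = x := by
      rw [ODE.FunSpace.compProj_val, ← hα, ODE.FunSpace.next_apply₀]
    exact this
  · intro t ht
    apply ODE.hasDerivWithinAt_picard_Icc (left_mem_Icc.2 zero_le_one) hpl.continuousOn_uncurry
      α.continuous_compProj.continuousOn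
      (fun _ ht' ↦ α.compProj_mem_closedBall hpl.mul_max_le)
      x ht |>.congr_of_mem _ ht
    intro t' ht'
    nth_rw 1 [← hα]
    rw [ODE.FunSpace.compProj_of_mem ht', ODE.FunSpace.next_apply]
  · have := α.compProj_mem_closedBall hpl.mul_max_le (t := s)
    simpa using this

/-- smooth maps -/
def Sm (V : Type) [NormedAddCommGroup V] [NormedSpace ℂ V] : Submodule ℂ (V → V) where
  carrier := {g | ContDiff ℂ ∞ g}
  add_mem' := fun h h' => by
    rw [Set.mem_ofPred_eq] at h h' ⊢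
    exact h.add h'
  zero_mem' := by
    rw [Set.mem_ofPred_eq]
    exact contDiff_const (c := (0 : V))
  smul_mem' := fun c _ h => by
    rw [Set.mem_ofPred_eq] at h ⊢
    exact h.const_smul c

theorem mem_Sm {V : Type} [NormedAddCommGroup V] [NormedSpace ℂ V] {g : V → V} :
    g ∈ Sm V ↔ ContDiff ℂ ∞ g := by
  change g ∈ {g | ContDiff ℂ ∞ g} ↔ _
  rw [Set.mem_ofPred_eq]

theorem cd {V : Type} [NormedAddCommGroup V] [NormedSpace ℂ V] (g : Sm V) : ContDiff ℂ ∞ g.1 :=
  mem_Sm.1 g.2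

/-- the derivation attached to a vector field -/
def Dop (f : V → V) (hf : ContDiff ℂ ∞ f) : Sm V →ₗ[ℂ] Sm V where
  toFun g := ⟨fun x => fderiv ℂ g.1 x (f x), by
    have h1 : ContDiff ℂ ∞ (fderiv ℂ g.1) :=
      ContDiff.fderiv_right (m := ∞) (cd g) (by norm_cast)
    exact mem_Sm.2 (h1.clm_apply hf)⟩
  map_add' g h := by
    ext x
    have hg : DifferentiableAt ℂ g.1 x := ((cd g).differentiable (by norm_num)) x
    have hh : DifferentiableAt ℂ h.1 x := ((cd h).differentiable (by norm_num)) x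
    change fderiv ℂ (g.1 + h.1) x (f x) = _
    rw [fderiv_add hg hh]; rfl
  map_smul' c g := by
    ext x
    have hg : DifferentiableAt ℂ g.1 x := ((cd g).differentiable (by norm_num)) x
    change fderiv ℂ (c • g.1) x (f x) = _
    rw [fderiv_const_smul hg]; rfl

theorem Dop_apply (f : V → V) (hf : ContDiff ℂ ∞ f) (g : Sm V) (x : V) :
    (Dop f hf g).1 x = fderiv ℂ g.1 x (f x) := rfl

/-- Taylor expansion along the flow -/
theorem taylor {f : V → V} (hf : ContDiff ℂ ∞ f) {τ : ℂ} {γ : ℝ → V} {K : Set V}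
    (hd : ∀ s ∈ Icc (0:ℝ) 1, HasDerivWithinAt γ (τ • f (γ s)) (Icc 0 1) s)
    (hK : ∀ s, γ s ∈ K) (N : ℕ) : ∀ (g : Sm V) (C : ℝ),
      (∀ x ∈ K, ‖(((Dop f hf) ^ N) g).1 x‖ ≤ C) → ∀ s ∈ Icc (0:ℝ) 1,
      ‖g.1 (γ s) - ∑ n ∈ Finset.range N, ((τ * s) ^ n * ((n.factorial : ℂ)⁻¹)) •
        (((Dop f hf) ^ n) g).1 (γ 0)‖ ≤ ‖τ‖ ^ N * C := by
  induction N with
  | zero =>
    intro g C hC s hs
    have := hC (γ s) (hK s)
    simpa using this
  | succ N ih =>
    intro g C hC s hs
    have hC' : ∀ x ∈ K, ‖(((Dop f hf) ^ N) (Dop f hf g)).1 x‖ ≤ C := by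
      intro x hx
      have := hC x hx
      rwa [pow_succ] at this
    have ih' := ih (Dop f hf g) C hC'
    have hF : ∀ s ∈ Icc (0:ℝ) 1, HasDerivWithinAt (fun s : ℝ => g.1 (γ s) -
        ∑ n ∈ Finset.range (N + 1), ((τ * s) ^ n * ((n.factorial : ℂ)⁻¹)) •
        (((Dop f hf) ^ n) g).1 (γ 0))
        (τ • ((Dop f hf g).1 (γ s) - ∑ n ∈ Finset.range N, ((τ * s) ^ n * ((n.factorial : ℂ)⁻¹)) •
        (((Dop f hf) ^ n) (Dop f hf g)).1 (γ 0))) (Icc 0 1) s := by
      intro s hs
      rw [smul_sub]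
      refine HasDerivWithinAt.sub ?_ ?_
      · have h1 : HasFDerivAt g.1 ((fderiv ℂ g.1 (γ s)).restrictScalars ℝ) (γ s) :=
          (((cd g).differentiable (by norm_num)) (γ s)).hasFDerivAt.restrictScalars ℝ
        have h2 := h1.comp_hasDerivWithinAt s (hd s hs)
        have h3 : (fderiv ℂ g.1 (γ s)).restrictScalars ℝ (τ • f (γ s)) =
            τ • (Dop f hf g).1 (γ s) := by
          rw [Dop_apply]
          change fderiv ℂ g.1 (γ s) (τ • f (γ s)) = _
          rw [map_smul]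
        rwa [h3] at h2
      · rw [Finset.smul_sum]
        simp only [Finset.sum_range_succ']
        have h4 : HasDerivWithinAt (fun s : ℝ => ∑ n ∈ Finset.range N,
            ((τ * s) ^ (n + 1) * (((n + 1).factorial : ℂ)⁻¹)) •
            (((Dop f hf) ^ (n + 1)) g).1 (γ 0))
            (∑ n ∈ Finset.range N, τ • ((τ * s) ^ n * ((n.factorial : ℂ)⁻¹)) •
            (((Dop f hf) ^ n) (Dop f hf g)).1 (γ 0)) (Icc 0 1) s := by
          refine HasDerivWithinAt.fun_sum fun n _ => ?_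
          have h5 : HasDerivAt (fun s : ℝ => ((τ * s) ^ (n + 1) * (((n + 1).factorial : ℂ)⁻¹) : ℂ))
              (τ * ((τ * s) ^ n * ((n.factorial : ℂ)⁻¹))) s := by
            have h6 : HasDerivAt (fun s : ℝ => (τ * s : ℂ)) τ s := by
              have := (Complex.ofRealCLM.hasDerivAt (x := s)).const_mul τ
              simpa using this
            have h7 := (h6.pow (n + 1)).mul_const (((n + 1).factorial : ℂ)⁻¹)
            refine h7.congr_deriv ?_
            rw [Nat.factorial_succ]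
            push_cast
            have hn : ((n : ℂ) + 1) ≠ 0 := by exact_mod_cast Nat.succ_ne_zero n
            have hn' : (n.factorial : ℂ) ≠ 0 := by exact_mod_cast n.factorial_ne_zero
            field_simp
          have h8 := h5.smul_const ((((Dop f hf) ^ (n + 1)) g).1 (γ 0))
          rw [mul_smul] at h8
          have h9 : (((Dop f hf) ^ (n + 1)) g) = (((Dop f hf) ^ n) (Dop f hf g)) := by
            rw [pow_succ]; rfl
          rw [← h9]
          exact h8.hasDerivWithinAt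
        have h10 := h4.add_const (((τ * ((0:ℝ) : ℂ)) ^ 0 * (((0:ℕ).factorial : ℂ)⁻¹)) •
            (((Dop f hf) ^ 0) g).1 (γ 0))
        have h11 : (fun s : ℝ => ∑ n ∈ Finset.range N,
            ((τ * s) ^ (n + 1) * (((n + 1).factorial : ℂ)⁻¹)) •
            (((Dop f hf) ^ (n + 1)) g).1 (γ 0) + ((τ * (s : ℂ)) ^ 0 * (((0:ℕ).factorial : ℂ)⁻¹)) •
            (((Dop f hf) ^ 0) g).1 (γ 0)) = (fun s : ℝ => ∑ n ∈ Finset.range N,
            ((τ * s) ^ (n + 1) * (((n + 1).factorial : ℂ)⁻¹)) •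
            (((Dop f hf) ^ (n + 1)) g).1 (γ 0) + ((τ * ((0:ℝ) : ℂ)) ^ 0 *
            (((0:ℕ).factorial : ℂ)⁻¹)) • (((Dop f hf) ^ 0) g).1 (γ 0)) := by
          funext s
          simp only [pow_zero]
        rw [h11]
        exact h10
    have key := norm_image_sub_le_of_norm_deriv_le_segment' (a := 0) (b := 1)
      (C := ‖τ‖ ^ (N + 1) * C) hF (by
        intro s hs
        rw [norm_smul, pow_succ', mul_assoc]
        exact mul_le_mul_of_nonneg_left (ih' s (Ico_subset_Icc_self hs)) (norm_nonneg _)) s hs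
    have h0 : g.1 (γ 0) - ∑ n ∈ Finset.range (N + 1), ((τ * ((0:ℝ) : ℂ)) ^ n *
        ((n.factorial : ℂ)⁻¹)) • (((Dop f hf) ^ n) g).1 (γ 0) = 0 := by
      rw [Finset.sum_range_succ']
      simp
    rw [h0, sub_zero, sub_zero] at key
    have hCn : 0 ≤ ‖τ‖ ^ (N + 1) * C := by
      have : 0 ≤ C := (norm_nonneg _).trans (hC (γ s) (hK s))
      positivity
    refine key.trans ?_
    have := hs.2
    nlinarith

end flow

end H522R3.Spl
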