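import Pool.Agent.H522R3.Spl.Dyn

/-! Group-like power series. -/

open Finset PowerSeries
open scoped TensorProduct

noncomputable section

namespace H522R3.Spl

abbrev R : Type := PowerSeries A

section exg
variable {C : Type} [Ring C] [Algebra ℂ C]

/-- `exp (T x)` -/
def exg (x : C) : PowerSeries C := PowerSeries.mk fun n => ((n.factorial : ℂ)⁻¹) • x ^ n

theorem coeff_exg (x : C) (n : ℕ) : coeff n (exg x) = ((n.factorial : ℂ)⁻¹) • x ^ n := by
  simp [exg]

theorem exg_add {x y : C} (h : Commute x y) : exg x * exg y = exg (x + y) := by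
  ext n
  rw [coeff_mul, coeff_exg, h.add_pow', smul_sum]
  refine sum_congr rfl fun p hp => ?_
  rw [HasAntidiagonal.mem_antidiagonal] at hp
  rw [coeff_exg, coeff_exg, smul_mul_smul_comm, ← Nat.cast_smul_eq_nsmul ℂ, smul_smul]
  congr 1
  have h1 := Nat.add_choose_mul_factorial_mul_factorial p.1 p.2
  rw [hp] at h1
  have h2 : ((n.choose p.1 : ℂ)) * (p.1.factorial : ℂ) * (p.2.factorial : ℂ) = (n.factorial : ℂ) := by
    rw [← hp]
    rw [Nat.choose_symm_add] at *
    exact_mod_cast (by rw [← hp] at h1; exact h1)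
  have ha : (p.1.factorial : ℂ) ≠ 0 := by exact_mod_cast p.1.factorial_ne_zero
  have hb : (p.2.factorial : ℂ) ≠ 0 := by exact_mod_cast p.2.factorial_ne_zero
  have hc : (n.factorial : ℂ) ≠ 0 := by exact_mod_cast n.factorial_ne_zero
  field_simp
  linear_combination -h2

theorem exg_zero : exg (0 : C) = 1 := by
  ext n
  rw [coeff_exg, coeff_one]
  rcases n with _ | n <;> simp

theorem exg_neg (x : C) : exg x * exg (-x) = 1 := by
  rw [exg_add (Commute.neg_right (Commute.refl x)), add_neg_cancel, exg_zero]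

theorem exg_neg' (x : C) : exg (-x) * exg x = 1 := by
  rw [exg_add (Commute.neg_left (Commute.refl x)), neg_add_cancel, exg_zero]

theorem coeff_exg_zero (x : C) : coeff 0 (exg x) = 1 := by rw [coeff_exg]; simp
theorem coeff_exg_one (x : C) : coeff 1 (exg x) = x := by rw [coeff_exg]; simp

theorem map_exg {D : Type} [Ring D] [Algebra ℂ D] (f : C →ₐ[ℂ] D) (x : C) :
    PowerSeries.map (f : C →+* D) (exg x) = exg (f x) := by
  ext n
  rw [coeff_map, coeff_exg, coeff_exg]
  simp

end exg

/-- Group-like series whose coefficients are homogeneous. -/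
structure Grl (g : R) : Prop where
  hom : ∀ n, coeff n g ∈ M ^ n
  one : coeff 0 g = 1
  grp : PowerSeries.map (Dl : A →+* AA) g =
    PowerSeries.map (i1 : A →+* AA) g * PowerSeries.map (i2 : A →+* AA) g

theorem i12_comm (a b : A) : i2 a * i1 b = i1 b * i2 a := by
  rw [i1, i2, Algebra.TensorProduct.includeLeft_apply,
    Algebra.TensorProduct.includeRight_apply, Algebra.TensorProduct.tmul_mul_tmul,
    Algebra.TensorProduct.tmul_mul_tmul]
  simp

theorem map12_comm (g h : R) : PowerSeries.map (i2 : A →+* AA) g * PowerSeries.map (i1 : A →+* AA) h =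
    PowerSeries.map (i1 : A →+* AA) h * PowerSeries.map (i2 : A →+* AA) g := by
  ext n
  rw [coeff_mul, coeff_mul, ← Finset.sum_equiv (Equiv.prodComm ℕ ℕ) (s := antidiagonal n)]
  · intro p
    simp only [HasAntidiagonal.mem_antidiagonal, Equiv.prodComm_apply, Prod.fst_swap, Prod.snd_swap]
    rw [add_comm]
  · intro p _
    simp only [coeff_map, Equiv.prodComm_apply, Prod.fst_swap, Prod.snd_swap]
    exact (i12_comm _ _).symm

theorem Grl.mul {g h : R} (hg : Grl g) (hh : Grl h) : Grl (g * h) where
  hom n := by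
    rw [coeff_mul]
    refine Submodule.sum_mem _ fun p hp => ?_
    rw [HasAntidiagonal.mem_antidiagonal] at hp
    rw [← hp, pow_add]
    exact Submodule.mul_mem_mul (hg.hom _) (hh.hom _)
  one := by
    rw [coeff_mul]; simp [hg.one, hh.one]
  grp := by
    rw [map_mul, hg.grp, hh.grp, map_mul, map_mul]
    rw [mul_assoc, ← mul_assoc (PowerSeries.map (i2 : A →+* AA) g), map12_comm]
    simp only [mul_assoc]

theorem Grl.ex {x : A} (hx : x ∈ M) : Grl (exg x) where
  hom n := by
    rw [coeff_exg]; exact Submodule.smul_mem _ _ (Submodule.pow_mem_pow _ hx n)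
  one := coeff_exg_zero x
  grp := by
    rw [map_exg, map_exg, map_exg, Dl_M hx, exg_add]
    exact (i12_comm x x).symm

theorem Grl.one' : Grl (1 : R) := by
  have := Grl.ex (Submodule.zero_mem M)
  rwa [exg_zero] at this

theorem Grl.diff {g h : R} (hg : Grl g) (hh : Grl h) {N : ℕ}
    (hlow : ∀ j ≤ N, coeff j g = coeff j h) : coeff (N + 1) g - coeff (N + 1) h ∈ L N := by
  refine prim_mem_L (Submodule.sub_mem _ (hg.hom _) (hh.hom _)) ?_
  have h1 := congrArg (coeff (N + 1)) hg.grp
  have h2 := congrArg (coeff (N + 1)) hh.grp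
  rw [coeff_mul, coeff_map] at h1 h2
  have h3 : Dl (coeff (N + 1) g) - Dl (coeff (N + 1) h) =
      ∑ p ∈ antidiagonal (N + 1), ((i1 (coeff p.1 g) * i2 (coeff p.2 g)) -
        (i1 (coeff p.1 h) * i2 (coeff p.2 h))) := by
    rw [sum_sub_distrib]
    simp only [coeff_map] at h1 h2
    exact congrArg₂ (· - ·) h1 h2
  rw [map_sub, h3, Finset.sum_eq_add_of_mem (0, N + 1) (N + 1, 0) (by simp) (by simp) (by simp)]
  · simp only [hg.one, hh.one, map_one, map_sub]
    noncomm_ring
  · intro p hp hne
    rw [HasAntidiagonal.mem_antidiagonal] at hp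
    have e1 : p.1 ≤ N := by
      by_contra hc
      apply hne.2
      ext <;> simp <;> omega
    have e2 : p.2 ≤ N := by
      by_contra hc
      apply hne.1
      ext <;> simp <;> omega
    rw [hlow _ e1, hlow _ e2, sub_self]

/-- the dilation -/
def dil (c : ℂ) : A →ₐ[ℂ] A := FreeAlgebra.lift ℂ fun b => c • X b

theorem dil_X (c : ℂ) (b : Bool) : dil c (X b) = c • X b := by simp [dil, X]

theorem dil_M (c : ℂ) {x : A} (hx : x ∈ M) : dil c x = c • x := by
  induction hx using Submodule.span_induction with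
  | mem x h => obtain ⟨b, rfl⟩ := h; exact dil_X c b
  | zero => simp
  | add x y _ _ hx hy => rw [map_add, hx, hy, smul_add]
  | smul a x _ hx => rw [map_smul, hx, smul_comm]

theorem dil_pow (c : ℂ) {n : ℕ} {x : A} (hx : x ∈ M ^ n) : dil c x = c ^ n • x := by
  induction n generalizing x with
  | zero =>
    rw [pow_zero] at hx
    obtain ⟨r, rfl⟩ := Submodule.mem_one.1 hx
    simp
  | succ n ih =>
    rw [pow_succ] at hx
    induction hx using Submodule.mul_induction_on' with
    | mem_mul_mem a ha b hb =>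
      rw [map_mul, ih ha, dil_M c hb, smul_mul_smul_comm, pow_succ]
    | add x _ y _ hx hy => rw [map_add, hx, hy, smul_add]

def dd (c : ℂ) : AA →ₐ[ℂ] AA := Algebra.TensorProduct.map (dil c) (dil c)

theorem dd_i1 (c : ℂ) (a : A) : dd c (i1 a) = i1 (dil c a) := by
  simp [dd, i1]

theorem dd_i2 (c : ℂ) (a : A) : dd c (i2 a) = i2 (dil c a) := by
  simp [dd, i2]

theorem Dl_dil (c : ℂ) (a : A) : Dl (dil c a) = dd c (Dl a) := by
  have h : Dl.comp (dil c) = (dd c).comp Dl := by
    apply FreeAlgebra.hom_ext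
    funext b
    change Dl (dil c (X b)) = dd c (Dl (X b))
    rw [dil_X, Dl_X, map_smul, Dl_X, map_add, dd_i1, dd_i2, dil_X, map_smul, map_smul, smul_add]
  exact DFunLike.congr_fun h a

theorem Grl.dil {g : R} (hg : Grl g) (c : ℂ) : Grl (PowerSeries.map (dil c : A →+* A) g) where
  hom n := by
    rw [coeff_map]
    change Spl.dil c (coeff n g) ∈ _
    rw [dil_pow c (hg.hom n)]; exact Submodule.smul_mem _ _ (hg.hom n)
  one := by rw [coeff_map, hg.one, map_one]
  grp := by
    have e1 : PowerSeries.map (Dl : A →+* AA) (PowerSeries.map (Spl.dil c : A →+* A) g) =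
        PowerSeries.map (dd c : AA →+* AA) (PowerSeries.map (Dl : A →+* AA) g) := by
      ext n; simp only [coeff_map]; exact Dl_dil c _
    have e2 : PowerSeries.map (i1 : A →+* AA) (PowerSeries.map (Spl.dil c : A →+* A) g) =
        PowerSeries.map (dd c : AA →+* AA) (PowerSeries.map (i1 : A →+* AA) g) := by
      ext n; simp only [coeff_map]; exact (dd_i1 c _).symm
    have e3 : PowerSeries.map (i2 : A →+* AA) (PowerSeries.map (Spl.dil c : A →+* A) g) =
        PowerSeries.map (dd c : AA →+* AA) (PowerSeries.map (i2 : A →+* AA) g) := by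
      ext n; simp only [coeff_map]; exact (dd_i2 c _).symm
    rw [e1, e2, e3, hg.grp, map_mul]

theorem Grl.coeff_dil {g : R} (hg : Grl g) (c : ℂ) (n : ℕ) :
    coeff n (PowerSeries.map (Spl.dil c : A →+* A) g) = c ^ n • coeff n g := by
  rw [coeff_map]; exact dil_pow c (hg.hom n)

end H522R3.Spl
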