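import Pool.Agent.H522R3.Spl.Cone

/-! The induction on the order. -/

open Finset PowerSeries Filter Topology
open scoped TensorProduct

noncomputable section

namespace H522R3.Spl

theorem mem_M_iff {x : A} (hx : x ∈ M) : ∃ a b : ℂ, x = a • X false + b • X true := by
  unfold M at hx
  induction hx using Submodule.span_induction with
  | mem x h =>
    obtain ⟨b, rfl⟩ := h
    cases b
    · exact ⟨1, 0, by simp⟩
    · exact ⟨0, 1, by simp⟩
  | zero => exact ⟨0, 0, by simp⟩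
  | add x y _ _ hx hy =>
    obtain ⟨a, b, rfl⟩ := hx
    obtain ⟨a', b', rfl⟩ := hy
    exact ⟨a + a', b + b', by rw [add_smul, add_smul]; abel⟩
  | smul c x _ hx =>
    obtain ⟨a, b, rfl⟩ := hx
    exact ⟨c * a, c * b, by rw [smul_add, smul_smul, smul_smul]⟩

theorem coeff_one_W1 (a b : ℂ) : coeff 1 (W [(a, b)]) = a • X false + b • X true := by
  rw [show W [(a, b)] = exg (b • X true) * exg (a • X false) * 1 from rfl, mul_one, coeff_mul]
  simp only [Finset.Nat.antidiagonal_succ, Finset.Nat.antidiagonal_zero, Finset.map_singleton,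
    Finset.sum_cons, Finset.sum_singleton, Function.Embedding.prodMap, Function.Embedding.coeFn_mk,
    Prod.map]
  simp [coeff_exg_zero, coeff_exg_one]

theorem base : PP 1 4 (1 / 2) := by
  intro g hg hc
  have h1 := hg.hom 1
  rw [pow_one] at h1
  obtain ⟨a, b, hab⟩ := mem_M_iff h1
  have h2 := hc 1 le_rfl
  rw [E, coeff_exg_one, hab, one_smul] at h2
  have h3 : a • X false + b • X true - (X false + X true) =
      (a - 1) • X false + (b - 1) • X true := by
    rw [sub_smul, sub_smul, one_smul, one_smul]; abel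
  rw [h3, norm_lin] at h2
  have ha : ‖a - 1‖ < 1 / 2 := by linarith [norm_nonneg (b - 1)]
  have hb : ‖b - 1‖ < 1 / 2 := by linarith [norm_nonneg (a - 1)]
  have key : ∀ c : ℂ, ‖c - 1‖ < 1 / 2 → 0 < c.re ∧ ‖c‖ ≤ 2 := by
    intro c hc
    constructor
    · have := (Complex.abs_re_le_norm (c - 1)).trans_lt hc
      rw [abs_lt, Complex.sub_re, Complex.one_re] at this
      linarith [this.1]
    · have : ‖c‖ ≤ ‖c - 1‖ + ‖(1 : ℂ)‖ := by
        have := norm_add_le (c - 1) 1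
        rwa [sub_add_cancel] at this
      rw [norm_one] at this
      linarith
  refine ⟨[(a, b)], ?_, ?_, ?_⟩
  · intro p hp
    simp only [List.mem_cons, List.not_mem_nil, or_false] at hp
    subst hp
    exact ⟨(key a ha).1, (key b hb).1⟩
  · simp only [sz]
    linarith [(key a ha).2, (key b hb).2]
  · intro j hj
    interval_cases j
    · rw [(W_Grl _).one, hg.one]
    · rw [coeff_one_W1, hab]

theorem dil_dil {g : R} (hg : Grl g) {η : ℂ} (hη : η ≠ 0) :
    PowerSeries.map (dil η : A →+* A) (PowerSeries.map (dil η⁻¹ : A →+* A) g) = g := by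
  ext j
  rw [(hg.dil _).coeff_dil, hg.coeff_dil, smul_smul, ← mul_pow, mul_inv_cancel₀ hη, one_pow, one_smul]

theorem step {n : ℕ} {R0 δ0 : ℝ} (hδ : 0 < δ0) (hP : PP (n + 1) R0 δ0) :
    ∃ R1 δ1 : ℝ, 0 < δ1 ∧ PP (n + 1 + 1) R1 δ1 := by
  obtain ⟨r, hr, ρ, hball⟩ := ach_ball hδ hP
  have hR0 : 0 ≤ R0 := by
    obtain ⟨l, _, h2, _⟩ := hP (E 1) (E_Grl 1) (by intro j _; simp [hδ])
    exact (sz_nonneg l).trans h2
  have hρ : 0 ≤ ρ := (hball 0 (Submodule.zero_mem _) (by simpa using hr.le)).nonneg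
  set M0 : ℝ := R0 ^ (n + 1 + 1) / (n + 1 + 1).factorial + ‖coeff (n + 1 + 1) (E 1)‖ + 1 with hM0
  have hM0pos : 1 ≤ M0 := by
    have : 0 ≤ R0 ^ (n + 1 + 1) / (n + 1 + 1).factorial := by positivity
    have := norm_nonneg (coeff (n + 1 + 1) (E 1))
    linarith
  obtain ⟨η, hη0, hη1, hη2⟩ : ∃ η : ℝ, 0 < η ∧ η ≤ 1 / 2 ∧ (2 * η) ^ (n + 1 + 1) * M0 ≤ r := by
    refine ⟨min (1 / 2) (r / (2 * M0)), lt_min (by norm_num) (by positivity), min_le_left _ _, ?_⟩
    set η := min (1 / 2) (r / (2 * M0))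
    have h1 : 0 ≤ 2 * η := by positivity
    have h2 : 2 * η ≤ 1 := by linarith [min_le_left (1 / 2) (r / (2 * M0))]
    have h3 : (2 * η) ^ (n + 1 + 1) ≤ 2 * η := pow_le_of_le_one h1 h2 (by omega)
    have h4 : η ≤ r / (2 * M0) := min_le_right _ _
    rw [le_div_iff₀ (by positivity)] at h4
    calc (2 * η) ^ (n + 1 + 1) * M0 ≤ 2 * η * M0 := mul_le_mul_of_nonneg_right h3 (by linarith)
      _ ≤ r := by linarith
  set Em : R := E (-(1 - η : ℝ)) with hEm
  set C' : ℝ := ∑ j ∈ Finset.range (n + 1 + 1 + 1), ∑ p ∈ antidiagonal j, ‖coeff p.2 Em‖ + 1 with hC'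
  have hC'pos : 1 ≤ C' := by
    have : 0 ≤ ∑ j ∈ Finset.range (n + 1 + 1 + 1), ∑ p ∈ antidiagonal j, ‖coeff p.2 Em‖ := by
      positivity
    linarith
  set δ1 : ℝ := η ^ (n + 1 + 1) * min δ0 1 / (2 * C') with hδ1
  have hδ1pos : 0 < δ1 := by positivity
  refine ⟨R0 + ρ, δ1, hδ1pos, ?_⟩
  intro g hg hclose
  have hηC : ((η : ℂ)) ≠ 0 := by exact_mod_cast hη0.ne'
  set k0 : R := g * Em with hk0
  have hk0G : Grl k0 := hg.mul (E_Grl _)
  set k : R := PowerSeries.map (dil (η : ℂ)⁻¹ : A →+* A) k0 with hk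
  have hkG : Grl k := hk0G.dil _
  have hE1 : PowerSeries.map (dil (η : ℂ)⁻¹ : A →+* A) (E 1 * Em) = E 1 := by
    rw [hEm, E_mul, dil_E]
    congr 1
    push_cast
    rw [← mul_inv_cancel₀ hηC]
    field_simp
    ring
  have hkc : ∀ j ≤ n + 1 + 1, ‖coeff j k - coeff j (E 1)‖ < min δ0 1 := by
    intro j hj
    rw [← hE1, hk, hk0G.coeff_dil, ((E_Grl 1).mul (E_Grl _)).coeff_dil, ← smul_sub, norm_smul,
      norm_pow, norm_inv, Complex.norm_real, Real.norm_of_nonneg hη0.le, hk0, ← map_sub, ← sub_mul,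
      coeff_mul]
    have h1 : ‖∑ p ∈ antidiagonal j, coeff p.1 (g - E 1) * coeff p.2 Em‖ ≤ δ1 * C' := by
      refine (norm_sum_le _ _).trans ?_
      have h2 : ∑ p ∈ antidiagonal j, ‖coeff p.1 (g - E 1) * coeff p.2 Em‖ ≤
          ∑ p ∈ antidiagonal j, δ1 * ‖coeff p.2 Em‖ := by
        refine sum_le_sum fun p hp => ?_
        rw [HasAntidiagonal.mem_antidiagonal] at hp
        refine (norm_mul_le _ _).trans (mul_le_mul_of_nonneg_right ?_ (norm_nonneg _))
        rw [map_sub]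
        exact (hclose p.1 (by omega)).le
      refine h2.trans ?_
      rw [← mul_sum]
      refine mul_le_mul_of_nonneg_left ?_ hδ1pos.le
      have h3 : ∑ p ∈ antidiagonal j, ‖coeff p.2 Em‖ ≤
          ∑ j ∈ Finset.range (n + 1 + 1 + 1), ∑ p ∈ antidiagonal j, ‖coeff p.2 Em‖ :=
        Finset.single_le_sum (f := fun j => ∑ p ∈ antidiagonal j, ‖coeff p.2 Em‖)
          (fun _ _ => Finset.sum_nonneg fun _ _ => norm_nonneg _)
          (Finset.mem_range.2 (by omega))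
      linarith
    have h4 : (η⁻¹) ^ j ≤ (η⁻¹) ^ (n + 1 + 1) :=
      pow_le_pow_right₀ ((one_le_inv₀ hη0).2 (by linarith)) hj
    have h5 : δ1 * C' = η ^ (n + 1 + 1) * (min δ0 1 / 2) := by
      rw [hδ1]; field_simp
    have hmin : 0 < min δ0 1 := by positivity
    calc (η⁻¹) ^ j * ‖∑ p ∈ antidiagonal j, coeff p.1 (g - E 1) * coeff p.2 Em‖
        ≤ (η⁻¹) ^ (n + 1 + 1) * (δ1 * C') := mul_le_mul h4 h1 (norm_nonneg _) (by positivity)
      _ = min δ0 1 / 2 := by
        rw [h5, ← mul_assoc, ← mul_pow, inv_mul_cancel₀ hη0.ne', one_pow, one_mul]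
      _ < min δ0 1 := by linarith
  obtain ⟨l, hl1, hl2, hl3⟩ := hP k hkG (fun j hj => (hkc j (by omega)).trans_le (min_le_left _ _))
  set c : A := coeff (n + 1 + 1) (W l) - coeff (n + 1 + 1) k with hc
  have hcL : c ∈ L (n + 1) := (W_Grl l).diff hkG hl3
  have hcn : ‖c‖ ≤ M0 := by
    refine (norm_sub_le _ _).trans ?_
    have h7 := Maj.W l (n + 1 + 1)
    have h8 : sz l ^ (n + 1 + 1) / (n + 1 + 1).factorial ≤
        R0 ^ (n + 1 + 1) / (n + 1 + 1).factorial := by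
      have := sz_nonneg l
      gcongr
    have h9 := (hkc (n + 1 + 1) le_rfl).trans_le (min_le_right _ _)
    have h10 : ‖coeff (n + 1 + 1) k‖ ≤ ‖coeff (n + 1 + 1) k - coeff (n + 1 + 1) (E 1)‖ +
        ‖coeff (n + 1 + 1) (E 1)‖ := by
      have := norm_add_le (coeff (n + 1 + 1) k - coeff (n + 1 + 1) (E 1)) (coeff (n + 1 + 1) (E 1))
      rwa [sub_add_cancel] at this
    linarith
  have hrel : Rel (n + 1 + 1) (W l) k c := ⟨fun j hj => hl3 j (by omega), by rw [hc]; abel⟩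
  have hrel2 := hrel.dil (W_Grl l) hkG (η : ℂ)
  rw [dil_W, hk, dil_dil hk0G hηC] at hrel2
  have hrel3 := hrel2.right (b := E ((1 - η : ℝ) : ℂ)) (E_Grl _).one
  have hgE : k0 * E ((1 - η : ℝ) : ℂ) = g := by
    rw [hk0, mul_assoc, hEm, E_mul]
    have : -((1 - η : ℝ) : ℂ) + ((1 - η : ℝ) : ℂ) = 0 := by ring
    rw [this, E_zero, mul_one]
  rw [hgE] at hrel3
  -- the correction
  have h1η : 0 < 1 - η := by linarith
  have hratio : η / (1 - η) ≤ 2 * η := by
    rw [div_le_iff₀ h1η]; nlinarith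
  set v : A := -((((η / (1 - η)) ^ (n + 1 + 1) : ℝ) : ℂ) • c) with hv
  have hvL : v ∈ L (n + 1) := Submodule.neg_mem _ (Submodule.smul_mem _ _ hcL)
  have hvn : ‖v‖ ≤ r := by
    rw [hv, norm_neg, norm_smul, Complex.norm_real, Real.norm_of_nonneg (by positivity)]
    calc (η / (1 - η)) ^ (n + 1 + 1) * ‖c‖ ≤ (2 * η) ^ (n + 1 + 1) * M0 :=
          mul_le_mul (pow_le_pow_left₀ (by positivity) hratio _) hcn (norm_nonneg _) (by positivity)
      _ ≤ r := hη2
  obtain ⟨l', h1', h2', h3'⟩ := (hball v hvL hvn).scale h1η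
  rw [mul_one] at h3'
  have hv2 : ((((1 - η) ^ (n + 1 + 1) : ℝ)) : ℂ) • v = -(((η : ℂ)) ^ (n + 1 + 1) • c) := by
    rw [hv, smul_neg, smul_smul, ← Complex.ofReal_mul, ← mul_pow, mul_div_cancel₀ _ h1η.ne']
    push_cast
    rfl
  rw [hv2] at h3'
  have h4 := h3'.left (a := W (sc (η : ℂ) l)) (W_Grl _).one
  have h5 := h4.trans hrel3
  rw [neg_add_cancel] at h5
  refine ⟨sc (η : ℂ) l ++ l', (hl1.sc hη0).append h1', ?_, ?_⟩
  · rw [sz_append, sz_sc, Complex.norm_real, Real.norm_of_nonneg hη0.le]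
    have e1 : η * sz l ≤ R0 := by
      have := sz_nonneg l
      nlinarith
    have e2 : (1 - η) * ρ ≤ ρ := by nlinarith
    linarith
  · intro j hj
    rw [W_append]
    rcases Nat.lt_or_ge j (n + 1 + 1) with h | h
    · exact h5.1 j h
    · have : j = n + 1 + 1 := by omega
      rw [this, h5.2, add_zero]

theorem all (n : ℕ) : ∃ R0 δ0 : ℝ, 0 < δ0 ∧ PP (n + 1) R0 δ0 := by
  induction n with
  | zero => exact ⟨4, 1 / 2, by norm_num, base⟩
  | succ n ih =>
    obtain ⟨R0, δ0, hδ, hP⟩ := ih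
    exact step hδ hP

/-- Existence of words with coefficients of positive real part that agree with
`exp (T (X + Y))` to any prescribed order. -/
theorem exists_word (N : ℕ) : ∃ l : List (ℂ × ℂ), l ≠ [] ∧ Pos l ∧
    ∀ j ≤ N, coeff j (W l) = coeff j (E 1) := by
  obtain ⟨R0, δ0, hδ, hP⟩ := all N
  obtain ⟨l, h1, _, h3⟩ := hP (E 1) (E_Grl 1) (by intro j _; simp [hδ])
  refine ⟨l, ?_, h1, fun j hj => h3 j (by omega)⟩
  rintro rfl
  have h4 := h3 1 (by omega)
  rw [E, coeff_exg_one, one_smul] at h4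
  have h5 : (0 : A) = X false + X true := by
    rw [← h4]; simp [W, coeff_one]
  have h6 := norm_lin 1 1
  rw [one_smul, one_smul, ← h5] at h6
  norm_num at h6

end H522R3.Spl
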