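import Pool.Agent.H522R3.Spl.Ctl

/-! The key step: real-linear functionals nonnegative on the attained defects vanish. -/

open Finset PowerSeries Filter Topology
open scoped TensorProduct

noncomputable section

namespace H522R3.Spl

/-- every group-like series close to `exp (T (X + Y))` agrees up to degree `N` with a positive word
of length at most `R0` -/
def PP (N : ℕ) (R0 δ0 : ℝ) : Prop :=
  ∀ g : R, Grl g → (∀ j ≤ N, ‖coeff j g - coeff j (E 1)‖ < δ0) →
    ∃ l, Pos l ∧ sz l ≤ R0 ∧ ∀ j ≤ N, coeff j (W l) = coeff j g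

theorem match_lemma {N : ℕ} {R0 δ0 : ℝ} (hP : PP N R0 δ0) {F G : ℝ → R} {τ : R}
    (hF : ∀ e, Grl (F e)) (hG : ∀ e, Grl (G e)) (hFG : ∀ e, F e * G e = 1) (hτ : Grl τ)
    (hGc : CT G) (hclose : ∀ j ≤ N, ‖coeff j (G 0 * τ) - coeff j (E 1)‖ < δ0) :
    ∃ e : ℝ, 0 < e ∧ ∃ l, Pos l ∧ ∃ c ∈ L N,
      ‖c‖ ≤ R0 ^ (N + 1) / (N + 1).factorial + ‖coeff (N + 1) (G 0 * τ)‖ + 1 ∧
      Rel (N + 1) (F e * W l) τ c := by
  have hc : CT fun e => G e * τ := hGc.mul (CT.const τ)
  have h1 : ∀ᶠ e in 𝓝 (0:ℝ), ∀ j ∈ Finset.range (N + 1),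
      ‖coeff j (G e * τ) - coeff j (E 1)‖ < δ0 := by
    rw [Filter.eventually_all_finset]
    intro j hj
    have h2 : Continuous fun e => ‖coeff j (G e * τ) - coeff j (E 1)‖ :=
      ((hc j).sub continuous_const).norm
    exact h2.continuousAt.eventually_lt continuousAt_const
      (hclose j (by simpa [Nat.lt_succ_iff] using hj))
  have h2 : ∀ᶠ e in 𝓝 (0:ℝ), ‖coeff (N + 1) (G e * τ)‖ < ‖coeff (N + 1) (G 0 * τ)‖ + 1 := by
    have h3 : Continuous fun e => ‖coeff (N + 1) (G e * τ)‖ := (hc (N + 1)).norm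
    exact h3.continuousAt.eventually_lt continuousAt_const (by simp)
  have h3 : ∀ᶠ e in 𝓝[>] (0:ℝ), 0 < e := self_mem_nhdsWithin
  obtain ⟨e, ⟨h4, h5⟩, h6⟩ := (((h1.and h2).filter_mono nhdsWithin_le_nhds).and h3).exists
  have hk : Grl (G e * τ) := (hG e).mul hτ
  obtain ⟨l, hl1, hl2, hl3⟩ := hP _ hk (fun j hj => h4 j (by simpa [Nat.lt_succ_iff] using hj))
  refine ⟨e, h6, l, hl1, coeff (N + 1) (W l) - coeff (N + 1) (G e * τ),
    (W_Grl l).diff hk hl3, ?_, ?_⟩
  · refine (norm_sub_le _ _).trans ?_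
    have h7 := Maj.W l (N + 1)
    have h8 : sz l ^ (N + 1) / (N + 1).factorial ≤ R0 ^ (N + 1) / (N + 1).factorial := by
      have := sz_nonneg l
      gcongr
    linarith
  · have h9 : Rel (N + 1) (W l) (G e * τ) (coeff (N + 1) (W l) - coeff (N + 1) (G e * τ)) :=
      ⟨fun j hj => hl3 j (by omega), by abel⟩
    have h10 := h9.left (hF e).one
    rwa [← mul_assoc, hFG, one_mul] at h10

/-- the attained defects -/
def Att (N : ℕ) (v : A) : Prop := v ∈ L N ∧ ∃ l, Pos l ∧ Rel (N + 1) (W l) (E 1) v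

theorem Kr_L : ∀ {n : ℕ} {e : A}, Kr n e → e ∈ L n := by
  intro n e h
  induction h with
  | base b r => exact Submodule.smul_mem _ _ (Submodule.smul_mem _ _ (X_mem b))
  | brk n e b _ ih => exact L_succ_mem ih (Submodule.smul_mem _ _ (X_mem b))
  | zero n => exact Submodule.zero_mem _
  | add n x y _ _ hx hy => exact Submodule.add_mem _ hx hy

theorem L_Kr : ∀ (n : ℕ) (z : A), z ∈ L n → ∃ k k', Kr n k ∧ Kr n k' ∧ z = k + Complex.I • k' := by
  have hadd : ∀ (n : ℕ) (x y : A), (∃ k k', Kr n k ∧ Kr n k' ∧ x = k + Complex.I • k') →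
      (∃ k k', Kr n k ∧ Kr n k' ∧ y = k + Complex.I • k') →
      (∃ k k', Kr n k ∧ Kr n k' ∧ x + y = k + Complex.I • k') := by
    rintro n x y ⟨k, k', h1, h2, rfl⟩ ⟨m, m', h3, h4, rfl⟩
    exact ⟨k + m, k' + m', h1.add _ _ _ h3, h2.add _ _ _ h4, by rw [smul_add]; abel⟩
  intro n
  induction n with
  | zero =>
    intro z hz
    rw [L, M] at hz
    induction hz using Submodule.closure_induction with
    | zero => exact ⟨0, 0, Kr.zero 0, Kr.zero 0, by simp⟩
    | add x y _ _ hx hy => exact hadd 0 x y hx hy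
    | smul_mem c x hx =>
      obtain ⟨b, rfl⟩ := hx
      refine ⟨(c.im : ℂ) • iX b, ((-c.re : ℝ) : ℂ) • iX b, Kr.base b _, Kr.base b _, ?_⟩
      rw [iX, smul_smul, smul_smul, smul_smul, ← add_smul]
      congr 1
      apply Complex.ext <;> simp
  | succ n ih =>
    intro z hz
    rw [L] at hz
    induction hz using Submodule.closure_induction with
    | zero => exact ⟨0, 0, Kr.zero _, Kr.zero _, by simp⟩
    | add x y _ _ hx hy => exact hadd _ x y hx hy
    | smul_mem c x hx =>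
      obtain ⟨l, hl, b, rfl⟩ := hx
      obtain ⟨k, k', h1, h2, h3⟩ := ih (c • l) (Submodule.smul_mem _ _ hl)
      refine ⟨k' * iX b - iX b * k', ((-1 : ℝ) : ℂ) • (k * iX b - iX b * k), Kr.brk _ _ b h2,
        (Kr.brk _ _ b h1).smul _, ?_⟩
      have h4 : c • (l * X b - X b * l) = (c • l) * X b - X b * (c • l) := by
        rw [smul_sub, smul_mul_assoc, mul_smul_comm]
      rw [h4, h3, iX]
      simp only [add_mul, mul_add, smul_mul_assoc, mul_smul_comm, smul_sub, smul_smul,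
        smul_add]
      have h5 : Complex.I * (((-1 : ℝ) : ℂ) * Complex.I) = 1 := by
        push_cast; linear_combination -Complex.I_sq
      rw [h5]
      simp only [one_smul]
      abel

/-- a functional bounded below on a whole line through multiples of `d` kills `d` -/
theorem lin_zero {c C : ℝ} (h : ∀ t : ℝ, 0 ≤ t * c + C) : c = 0 := by
  by_contra hc
  have h1 := h (-(C + 1) / c)
  rw [div_mul_cancel₀ _ hc] at h1
  linarith

section key
variable {n : ℕ} {R0 δ0 : ℝ}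

theorem key1 {N : ℕ} (hδ : 0 < δ0) (hP : PP N R0 δ0) {ℓ : A →+ ℝ}
    (hr : ∀ (t : ℝ) (x : A), ℓ ((t : ℂ) • x) = t * ℓ x) {Cl : ℝ}
    (hb : ∀ x ∈ L N, |ℓ x| ≤ Cl * ‖x‖) (hCl : 0 ≤ Cl)
    (hA : ∀ v, Att N v → 0 ≤ ℓ v) {e : A} (he : Kr N e) : ℓ e = 0 := by
  apply lin_zero (C := Cl * (R0 ^ (N + 1) / (N + 1).factorial + ‖coeff (N + 1) (E 1)‖ + 1))
  intro t
  obtain ⟨l, h1, h2, h3⟩ := Kr_list (he.smul t)
  have hkey : Wi l * (W l * E 1) = E 1 := by rw [← mul_assoc, Wi_W, one_mul]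
  obtain ⟨s, hs, l', h4, c, hc, h5, h6⟩ := match_lemma hP (F := fun e => W (sh e l))
    (G := fun e => Wi (sh e l)) (τ := W l * E 1) (fun _ => W_Grl _) (fun _ => Wi_Grl _)
    (fun _ => W_Wi _) ((W_Grl l).mul (E_Grl 1)) (CT_Wi l) (by
      intro j _
      simp only [sh_zero, hkey, sub_self, norm_zero]; exact hδ)
  simp only [sh_zero, hkey] at h5
  have h7 : Rel (N + 1) (W l * E 1) (E 1) ((t : ℂ) • e) := by
    have := h3.right (E_Grl 1).one
    rwa [one_mul] at this
  have h8 := h6.trans h7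
  have h9 : Att N (c + (t : ℂ) • e) := by
    refine ⟨Submodule.add_mem _ hc (Submodule.smul_mem _ _ (Kr_L he)), sh s l ++ l',
      (h1.sh hs).append h4, ?_⟩
    rw [W_append]; exact h8
  have h10 := hA _ h9
  rw [map_add, hr] at h10
  have h11 := abs_le.1 (hb c hc)
  have h12 := mul_le_mul_of_nonneg_left h5 hCl
  linarith [h11.2]

theorem key2 (hδ : 0 < δ0) (hP : PP (n + 1) R0 δ0) {ℓ : A →+ ℝ}
    (hr : ∀ (t : ℝ) (x : A), ℓ ((t : ℂ) • x) = t * ℓ x) {Cl : ℝ}
    (hb : ∀ x ∈ L (n + 1), |ℓ x| ≤ Cl * ‖x‖) (hCl : 0 ≤ Cl)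
    (hA : ∀ v, Att (n + 1) v → 0 ≤ ℓ v) {e : A} (he : Kr n e) (b : Bool) :
    ℓ (e * X b - X b * e) = 0 := by
  -- choose a small positive `a`
  obtain ⟨a, ha, hclose⟩ : ∃ a : ℝ, 0 < a ∧ ∀ j ≤ n + 1,
      ‖coeff j (exg (-((a : ℂ) • X b)) * E 1) - coeff j (E 1)‖ < δ0 := by
    have hc : CT fun a : ℝ => exg (-((a : ℂ) • X b)) * E 1 :=
      (CT.exg_neg (c := fun a : ℝ => (a : ℂ)) Complex.continuous_ofReal (X b)).mul (CT.const _)
    have h1 : ∀ᶠ a : ℝ in 𝓝 (0:ℝ), ∀ j ∈ Finset.range (n + 1 + 1),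
        ‖coeff j (exg (-((a : ℂ) • X b)) * E 1) - coeff j (E 1)‖ < δ0 := by
      rw [Filter.eventually_all_finset]
      intro j hj
      have h2 : Continuous fun a : ℝ => ‖coeff j (exg (-((a : ℂ) • X b)) * E 1) - coeff j (E 1)‖ :=
        ((hc j).sub continuous_const).norm
      refine h2.continuousAt.eventually_lt continuousAt_const ?_
      have : exg (-(((0:ℝ) : ℂ) • X b)) = 1 := by simp [exg_zero]
      rw [this, one_mul, sub_self, norm_zero]; exact hδ
    have h3 : ∀ᶠ a : ℝ in 𝓝[>] (0:ℝ), 0 < a := self_mem_nhdsWithin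
    obtain ⟨a, h4, h5⟩ := ((h1.filter_mono nhdsWithin_le_nhds).and h3).exists
    exact ⟨a, h5, fun j hj => h4 j (by simpa [Nat.lt_succ_iff] using hj)⟩
  have hmain : ℓ ((a : ℂ) • (e * X b - X b * e)) = 0 := by
    apply lin_zero (C := Cl * (R0 ^ (n + 1 + 1) / (n + 1 + 1).factorial +
      ‖coeff (n + 1 + 1) (exg (-((a : ℂ) • X b)) * E 1)‖ + 1))
    intro t
    obtain ⟨l, h1, h2, h3⟩ := Kr_list (he.smul t)
    set x : A := (a : ℂ) • X b with hx
    have hxM : x ∈ M := Submodule.smul_mem _ _ (X_mem b)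
    set τ : R := W l * exg x * Wi l * exg (-x) * E 1 with hτ
    have hG0 : Wi (linv l) * exg (-x) * Wi l * τ = exg (-x) * E 1 := by
      rw [Wi_linv, hτ]
      calc W l * exg (-x) * Wi l * (W l * exg x * Wi l * exg (-x) * E 1)
          = W l * exg (-x) * (Wi l * W l) * exg x * Wi l * exg (-x) * E 1 := by
            simp only [mul_assoc]
        _ = W l * (exg (-x) * exg x) * Wi l * exg (-x) * E 1 := by
            rw [Wi_W, mul_one]; simp only [mul_assoc]
        _ = exg (-x) * E 1 := by rw [exg_neg', mul_one, W_Wi, one_mul]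
    obtain ⟨s, hs, l', h4, c, hc, h5, h6⟩ := match_lemma hP
      (F := fun e => W (sh e l) * exg x * W (sh e (linv l)))
      (G := fun e => Wi (sh e (linv l)) * exg (-x) * Wi (sh e l)) (τ := τ)
      (fun _ => ((W_Grl _).mul (Grl.ex hxM)).mul (W_Grl _))
      (fun _ => ((Wi_Grl _).mul (Grl.ex (Submodule.neg_mem _ hxM))).mul (Wi_Grl _))
      (fun s => by
        calc W (sh s l) * exg x * W (sh s (linv l)) * (Wi (sh s (linv l)) * exg (-x) * Wi (sh s l))
            = W (sh s l) * exg x * (W (sh s (linv l)) * Wi (sh s (linv l))) * exg (-x)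
              * Wi (sh s l) := by simp only [mul_assoc]
          _ = W (sh s l) * (exg x * exg (-x)) * Wi (sh s l) := by
              rw [W_Wi, mul_one]; simp only [mul_assoc]
          _ = 1 := by rw [exg_neg, mul_one, W_Wi])
      (((((W_Grl _).mul (Grl.ex hxM)).mul (Wi_Grl _)).mul
        (Grl.ex (Submodule.neg_mem _ hxM))).mul (E_Grl 1))
      (((CT_Wi _).mul (CT.const _)).mul (CT_Wi l))
      (by
        intro j hj
        simp only [sh_zero, hG0]
        exact hclose j hj)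
    simp only [sh_zero, hG0] at h5
    have h7 : Rel (n + 1 + 1) τ (E 1) ((t : ℂ) • ((a : ℂ) • (e * X b - X b * e))) := by
      have h8 := (h3.comm (x := x) (W_Wi l) (Wi_Grl l).one).right (E_Grl 1).one
      rw [one_mul] at h8
      have h9 : (t : ℂ) • e * x - x * (t : ℂ) • e =
          (t : ℂ) • ((a : ℂ) • (e * X b - X b * e)) := by
        rw [hx]
        simp only [smul_mul_assoc, mul_smul_comm, smul_sub, smul_smul, mul_comm (a : ℂ)]
      rwa [h9] at h8
    have h8 := h6.trans h7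
    have hsh := h1.sh hs
    have hsh' := h1.linv.sh hs
    have hne' : linv l ≠ [] := by
      cases l with
      | nil => exact absurd rfl h2
      | cons p t => simp [linv]
    have hlist : ∃ l'', Pos l'' ∧ W l'' = W (sh s l) * exg x * W (sh s (linv l)) * W l' := by
      cases b with
      | false =>
        obtain ⟨m, hm1, hm2⟩ := mul_X_right (a := (a : ℂ)) (by simpa using ha) hsh (sh_ne h2)
        refine ⟨m ++ (sh s (linv l) ++ l'), hm1.append (hsh'.append h4), ?_⟩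
        rw [W_append, W_append, hm2]; simp only [mul_assoc, hx]
      | true =>
        obtain ⟨m, hm1, hm2⟩ := mul_Y_left (a := (a : ℂ)) (by simpa using ha) hsh' (sh_ne hne')
        refine ⟨sh s l ++ (m ++ l'), hsh.append (hm1.append h4), ?_⟩
        rw [W_append, W_append, hm2]; simp only [mul_assoc, hx]
    obtain ⟨l'', hl1, hl2⟩ := hlist
    have h9 : Att (n + 1) (c + (t : ℂ) • ((a : ℂ) • (e * X b - X b * e))) := by
      refine ⟨Submodule.add_mem _ hc (Submodule.smul_mem _ _ (Submodule.smul_mem _ _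
        (L_succ_mem (Kr_L he) (X_mem b)))), l'', hl1, ?_⟩
      rw [hl2]; exact h8
    have h10 := hA _ h9
    rw [map_add, hr] at h10
    have h11 := abs_le.1 (hb c hc)
    have h12 := mul_le_mul_of_nonneg_left h5 hCl
    linarith [h11.2]
  rw [hr] at hmain
  rcases mul_eq_zero.1 hmain with h | h
  · exact absurd h ha.ne'
  · exact h

theorem key (hδ : 0 < δ0) (hP : PP (n + 1) R0 δ0) {ℓ : A →+ ℝ}
    (hr : ∀ (t : ℝ) (x : A), ℓ ((t : ℂ) • x) = t * ℓ x) {Cl : ℝ}
    (hb : ∀ x ∈ L (n + 1), |ℓ x| ≤ Cl * ‖x‖) (hCl : 0 ≤ Cl)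
    (hA : ∀ v, Att (n + 1) v → 0 ≤ ℓ v) {z : A} (hz : z ∈ L (n + 1)) : ℓ z = 0 := by
  obtain ⟨k, k', h1, h2, rfl⟩ := L_Kr _ _ hz
  rw [map_add, key1 hδ hP hr hb hCl hA h1, zero_add]
  have h3 : ∀ m k', Kr m k' → m = n + 1 → ℓ (Complex.I • k') = 0 := by
    intro m k' h
    induction h with
    | base b r => intro h; omega
    | brk m e b he _ =>
      intro h
      have h4 : Complex.I • (e * iX b - iX b * e) = ((-1 : ℝ) : ℂ) • (e * X b - X b * e) := by
        rw [iX]
        simp only [mul_smul_comm, smul_mul_assoc, smul_sub, smul_smul, Complex.I_mul_I]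
        push_cast
        rfl
      have h5 : m = n := by omega
      subst h5
      rw [h4, hr, key2 hδ hP hr hb hCl hA he b, mul_zero]
    | zero m => intro _; simp
    | add m x y _ _ hx hy => intro h; rw [smul_add, map_add, hx h, hy h, add_zero]
  exact h3 _ _ h2 rfl

end key

end H522R3.Spl
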