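import Pool.Agent.H522R3.Spl.Gp

/-! Words: products of exponentials. -/

open Finset PowerSeries
open scoped TensorProduct

noncomputable section

namespace H522R3.Spl

/-- product over blocks -/
def W : List (ℂ × ℂ) → R
  | [] => 1
  | p :: l => exg (p.2 • X true) * exg (p.1 • X false) * W l

def Wi : List (ℂ × ℂ) → R
  | [] => 1
  | p :: l => Wi l * (exg (-(p.1 • X false)) * exg (-(p.2 • X true)))

theorem W_Wi : ∀ l, W l * Wi l = 1
  | [] => by simp [W, Wi]
  | p :: l => by
    rw [W, Wi]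
    calc exg (p.2 • X true) * exg (p.1 • X false) * W l *
        (Wi l * (exg (-(p.1 • X false)) * exg (-(p.2 • X true))))
        = exg (p.2 • X true) * (exg (p.1 • X false) * (W l * Wi l) * exg (-(p.1 • X false)))
          * exg (-(p.2 • X true)) := by simp only [mul_assoc]
      _ = 1 := by rw [W_Wi l, mul_one, exg_neg, mul_one, exg_neg]

theorem Wi_W : ∀ l, Wi l * W l = 1
  | [] => by simp [W, Wi]
  | p :: l => by
    rw [W, Wi]
    calc Wi l * (exg (-(p.1 • X false)) * exg (-(p.2 • X true))) *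
        (exg (p.2 • X true) * exg (p.1 • X false) * W l)
        = Wi l * (exg (-(p.1 • X false)) * (exg (-(p.2 • X true)) * exg (p.2 • X true)) *
          exg (p.1 • X false)) * W l := by simp only [mul_assoc]
      _ = 1 := by rw [exg_neg', mul_one, exg_neg', mul_one, Wi_W l]

theorem W_append : ∀ l l', W (l ++ l') = W l * W l'
  | [], l' => by simp [W]
  | p :: l, l' => by rw [List.cons_append, W, W, W_append l l']; simp only [mul_assoc]

def linv : List (ℂ × ℂ) → List (ℂ × ℂ)
  | [] => []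
  | p :: l => linv l ++ [(-p.1, 0), (0, -p.2)]

theorem W_linv : ∀ l, W (linv l) = Wi l
  | [] => rfl
  | p :: l => by
    rw [linv, W_append, W_linv l, Wi]
    simp [W, exg_zero]

/-- total length -/
def sz : List (ℂ × ℂ) → ℝ
  | [] => 0
  | p :: l => ‖p.1‖ + ‖p.2‖ + sz l

theorem sz_nonneg : ∀ l, 0 ≤ sz l
  | [] => le_refl _
  | p :: l => by rw [sz]; have := sz_nonneg l; positivity

theorem sz_append : ∀ l l', sz (l ++ l') = sz l + sz l'
  | [], l' => by simp [sz]
  | p :: l, l' => by rw [List.cons_append, sz, sz, sz_append l l']; ring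

/-- scaling -/
def sc (c : ℂ) : List (ℂ × ℂ) → List (ℂ × ℂ)
  | [] => []
  | p :: l => (c * p.1, c * p.2) :: sc c l

theorem sz_sc (c : ℂ) : ∀ l, sz (sc c l) = ‖c‖ * sz l
  | [] => by simp [sz, sc]
  | p :: l => by rw [sc, sz, sz, sz_sc c l, norm_mul, norm_mul]; ring

def Pos (l : List (ℂ × ℂ)) : Prop := ∀ p ∈ l, 0 < p.1.re ∧ 0 < p.2.re

theorem Pos.append {l l' : List (ℂ × ℂ)} (h : Pos l) (h' : Pos l') : Pos (l ++ l') := by
  intro p hp
  rcases List.mem_append.1 hp with h1 | h1
  · exact h p h1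
  · exact h' p h1

theorem Pos.sc {c : ℝ} (hc : 0 < c) : ∀ {l : List (ℂ × ℂ)}, Pos l → Pos (sc c l)
  | [], _ => by intro p hp; simp [Spl.sc] at hp
  | q :: l, h => by
    intro p hp
    rw [Spl.sc] at hp
    rcases List.mem_cons.1 hp with rfl | h1
    · have := h q (by simp)
      constructor
      · simpa using mul_pos hc this.1
      · simpa using mul_pos hc this.2
    · exact Pos.sc hc (fun p hp => h p (by simp [hp])) p h1

theorem dil_exg (c : ℂ) {x : A} (hx : x ∈ M) :
    PowerSeries.map (dil c : A →+* A) (exg x) = exg (c • x) := by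
  rw [map_exg, dil_M c hx]

theorem smulX_mem (c : ℂ) (b : Bool) : c • X b ∈ M := Submodule.smul_mem _ _ (X_mem b)

theorem dil_W (c : ℂ) : ∀ l, PowerSeries.map (dil c : A →+* A) (W l) = W (sc c l)
  | [] => by simp [W, sc]
  | p :: l => by
    rw [W, sc, W, map_mul, map_mul, dil_W c l, dil_exg c (smulX_mem _ _), dil_exg c (smulX_mem _ _),
      smul_smul, smul_smul]

theorem W_Grl : ∀ l, Grl (W l)
  | [] => Grl.one'
  | p :: l => ((Grl.ex (smulX_mem _ _)).mul (Grl.ex (smulX_mem _ _))).mul (W_Grl l)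

theorem Wi_Grl : ∀ l, Grl (Wi l)
  | [] => Grl.one'
  | p :: l => (Wi_Grl l).mul ((Grl.ex (Submodule.neg_mem _ (smulX_mem _ _))).mul
      (Grl.ex (Submodule.neg_mem _ (smulX_mem _ _))))

/-- majorization by `exp (r T)` -/
def Maj (g : R) (r : ℝ) : Prop := ∀ n, ‖coeff n g‖ ≤ r ^ n / n.factorial

theorem Maj.mul {g h : R} {r s : ℝ} (hr : 0 ≤ r) (hs : 0 ≤ s) (hg : Maj g r) (hh : Maj h s) :
    Maj (g * h) (r + s) := by
  intro n
  rw [coeff_mul]
  refine (norm_sum_le _ _).trans ?_
  rw [(Commute.all r s).add_pow', sum_div]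
  refine sum_le_sum fun p hp => ?_
  rw [HasAntidiagonal.mem_antidiagonal] at hp
  refine (norm_mul_le _ _).trans ((mul_le_mul (hg _) (hh _) (norm_nonneg _) (by positivity)).trans
    (le_of_eq ?_))
  rw [nsmul_eq_mul]
  have h1 := Nat.add_choose_mul_factorial_mul_factorial p.1 p.2
  have h2 : ((n.choose p.1 : ℝ)) * (p.1.factorial : ℝ) * (p.2.factorial : ℝ) = (n.factorial : ℝ) := by
    rw [← hp]
    rw [Nat.choose_symm_add] at *
    exact_mod_cast (by rw [← Nat.choose_symm_add] at h1; rw [Nat.choose_symm_add] at h1; exact h1)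
  have ha : (p.1.factorial : ℝ) ≠ 0 := by exact_mod_cast p.1.factorial_ne_zero
  have hb : (p.2.factorial : ℝ) ≠ 0 := by exact_mod_cast p.2.factorial_ne_zero
  have hc : (n.factorial : ℝ) ≠ 0 := by exact_mod_cast n.factorial_ne_zero
  field_simp
  linear_combination (-(r ^ p.1 * s ^ p.2)) * h2

theorem Maj.exg (c : ℂ) (b : Bool) : Maj (exg (c • X b)) ‖c‖ := by
  intro n
  rw [coeff_exg, smul_pow, norm_smul, norm_smul, norm_pow, norm_inv]
  have h1 : ‖X b ^ n‖ ≤ 1 := by
    refine (norm_pow_le _ _).trans ?_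
    rw [norm_X, one_pow]
  have h2 : ‖(n.factorial : ℂ)‖ = n.factorial := by simp
  rw [h2, div_eq_inv_mul]
  have : (0:ℝ) ≤ (n.factorial : ℝ)⁻¹ * ‖c‖ ^ n := by positivity
  nlinarith

theorem Maj.one : Maj (1 : R) 0 := by
  intro n
  rw [coeff_one]
  rcases n with _ | n
  · simp
  · simp

theorem Maj.W : ∀ l, Maj (W l) (sz l)
  | [] => Maj.one
  | p :: l => by
    rw [Spl.W, sz]
    have := ((Maj.exg p.2 true).mul (norm_nonneg _) (norm_nonneg _) (Maj.exg p.1 false)).mul
      (by positivity) (sz_nonneg l) (Maj.W l)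
    rwa [add_comm ‖p.2‖ ‖p.1‖] at this

/-- `g` and `g'` agree below degree `m` and differ by `d` in degree `m` -/
def Rel (m : ℕ) (g g' : R) (d : A) : Prop :=
  (∀ j < m, coeff j g = coeff j g') ∧ coeff m g = coeff m g' + d

theorem Rel.ex {m : ℕ} {g g' : R} {d : A} (h : Rel m g g' d) :
    ∃ D : R, g = g' + PowerSeries.X ^ m * D ∧ coeff 0 D = d := by
  have h1 : (PowerSeries.X : R) ^ m ∣ g - g' := by
    rw [X_pow_dvd_iff]
    intro j hj
    rw [map_sub, h.1 j hj, sub_self]
  obtain ⟨D, hD⟩ := h1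
  refine ⟨D, by rw [← hD]; abel, ?_⟩
  have h2 := congrArg (coeff m) hD
  rw [coeff_X_pow_mul', if_pos le_rfl, Nat.sub_self, map_sub, h.2, add_sub_cancel_left] at h2
  exact h2.symm

theorem Rel.of_ex {m : ℕ} {g g' D : R} (h : g = g' + PowerSeries.X ^ m * D) :
    Rel m g g' (coeff 0 D) := by
  constructor
  · intro j hj
    rw [h, map_add, coeff_X_pow_mul', if_neg (by omega), add_zero]
  · rw [h, map_add, coeff_X_pow_mul', if_pos le_rfl, Nat.sub_self]

theorem coeff_zero_mul' (g h : R) : coeff 0 (g * h) = coeff 0 g * coeff 0 h := by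
  rw [coeff_mul]; simp

theorem Rel.mulr {m : ℕ} {g g' : R} {d : A} (h : Rel m g g' d) {a b : R} (ha : coeff 0 a = 1)
    (hb : coeff 0 b = 1) : Rel m (a * g * b) (a * g' * b) d := by
  obtain ⟨D, hD, hd⟩ := h.ex
  have h1 : a * g * b = a * g' * b + PowerSeries.X ^ m * (a * D * b) := by
    rw [hD, mul_add, add_mul]
    congr 1
    rw [← mul_assoc a, ← X_pow_mul (φ := a) (n := m)]
    simp only [mul_assoc]
  have h2 := Rel.of_ex h1
  rwa [coeff_zero_mul', coeff_zero_mul', ha, hb, one_mul, mul_one, hd] at h2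

theorem Rel.left {m : ℕ} {g g' : R} {d : A} (h : Rel m g g' d) {a : R} (ha : coeff 0 a = 1) :
    Rel m (a * g) (a * g') d := by
  have := h.mulr ha (b := 1) (by simp)
  rwa [mul_one, mul_one] at this

theorem Rel.right {m : ℕ} {g g' : R} {d : A} (h : Rel m g g' d) {b : R} (hb : coeff 0 b = 1) :
    Rel m (g * b) (g' * b) d := by
  have := h.mulr (a := 1) (b := b) (by simp) hb
  rwa [one_mul, one_mul] at this

theorem Rel.trans {m : ℕ} {g g' g'' : R} {d d' : A} (h : Rel m g g' d) (h' : Rel m g' g'' d') :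
    Rel m g g'' (d + d') := by
  constructor
  · intro j hj; rw [h.1 j hj, h'.1 j hj]
  · rw [h.2, h'.2]; abel

theorem Rel.mul {m : ℕ} {g g' h h' : R} {d d' : A} (h1 : Rel m g g' d) (h2 : Rel m h h' d')
    (hh : coeff 0 h = 1) (hg' : coeff 0 g' = 1) : Rel m (g * h) (g' * h') (d + d') :=
  (h1.right hh).trans (h2.left hg')

theorem Rel.refl (m : ℕ) (g : R) : Rel m g g 0 := ⟨fun _ _ => rfl, by simp⟩

theorem Rel.symm {m : ℕ} {g g' : R} {d : A} (h : Rel m g g' d) : Rel m g' g (-d) :=
  ⟨fun j hj => (h.1 j hj).symm, by rw [h.2]; abel⟩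

theorem Rel.dil {m : ℕ} {g g' : R} {d : A} (h : Rel m g g' d) (hg : Grl g) (hg' : Grl g') (c : ℂ) :
    Rel m (PowerSeries.map (Spl.dil c : A →+* A) g) (PowerSeries.map (Spl.dil c : A →+* A) g')
      (c ^ m • d) := by
  constructor
  · intro j hj; rw [hg.coeff_dil, hg'.coeff_dil, h.1 j hj]
  · rw [hg.coeff_dil, hg'.coeff_dil, h.2, smul_add]

/-- commutators -/
theorem Rel.comm {m : ℕ} {h hi : R} {e x : A} (hr : Rel m h 1 e) (h1 : h * hi = 1)
    (h0 : coeff 0 hi = 1) :
    Rel (m + 1) (h * exg x * hi * exg (-x)) 1 (e * x - x * e) := by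
  obtain ⟨D, hD, hd⟩ := hr.ex
  set f : R := exg x with hf
  set fi : R := exg (-x) with hfi
  have hff : f * fi = 1 := exg_neg x
  have hf0 : coeff 0 f = 1 := coeff_exg_zero x
  have hfi0 : coeff 0 fi = 1 := coeff_exg_zero _
  have hf1 : coeff 1 f = x := coeff_exg_one x
  have hX : f * PowerSeries.X ^ m = PowerSeries.X ^ m * f := (X_pow_mul (φ := f) (n := m)).symm
  have e1 : h * f = f * h + PowerSeries.X ^ m * (D * f - f * D) := by
    rw [hD, add_mul, mul_add, one_mul, mul_one, ← mul_assoc f, hX, mul_sub]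
    simp only [mul_assoc]; abel
  have e2 : h * f * hi * fi = 1 + PowerSeries.X ^ m * ((D * f - f * D) * (hi * fi)) := by
    rw [e1, add_mul, add_mul, mul_assoc f h hi, h1, mul_one, hff]
    simp only [mul_assoc]
  set G : R := (D * f - f * D) * (hi * fi) with hG
  have c0 : coeff 0 (D * f - f * D) = 0 := by
    rw [map_sub, coeff_zero_mul', coeff_zero_mul', hf0, mul_one, one_mul, sub_self]
  have c1 : coeff 1 (D * f - f * D) = e * x - x * e := by
    rw [map_sub, coeff_mul, coeff_mul]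
    simp only [Finset.Nat.antidiagonal_succ, Finset.Nat.antidiagonal_zero, Finset.map_singleton,
      Finset.sum_cons, Finset.sum_singleton, Function.Embedding.prodMap, Function.Embedding.coeFn_mk,
      Prod.map]
    simp [hf0, hf1, hd]
    abel
  constructor
  · intro j hj
    rw [e2, map_add, coeff_X_pow_mul']
    split_ifs with hjm
    · have : j = m := by omega
      rw [this, Nat.sub_self, hG, coeff_zero_mul', c0, zero_mul, add_zero]
    · rw [add_zero]
  · rw [e2, map_add, coeff_X_pow_mul', if_pos (by omega), show m + 1 - m = 1 by omega, hG, coeff_mul]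
    congr 1
    simp only [Finset.Nat.antidiagonal_succ, Finset.Nat.antidiagonal_zero, Finset.map_singleton,
      Finset.sum_cons, Finset.sum_singleton, Function.Embedding.prodMap, Function.Embedding.coeFn_mk,
      Prod.map]
    have c0' : coeff 0 (hi * fi) = 1 := by rw [coeff_zero_mul', h0, hfi0, one_mul]
    simp only [Nat.succ_eq_add_one, zero_add, Function.Embedding.refl_apply, c0, c1, c0', zero_mul,
      mul_one]

end H522R3.Spl
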